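import Pool.Agent.H724.DL.Stm

set_option autoImplicit false

namespace Pool.Agent.H415.DLA1

open Pool.Agent.H724.DL

theorem foldl_none {α σ : Type} (f : Option σ → α → Option σ) (hf : ∀ a, f none a = none)
    (w : List α) : w.foldl f none = none := by
  induction w with
  | nil => rfl
  | cons a w ih => rw [List.foldl_cons, hf, ih]

theorem a1 : S_A1 := by
  intro α σ _ _ f hf T h
  have hfin : {x : List α | x.length < T}.Finite := List.finite_length_lt α T
  have h1 : {E : Set (List α) | Gj α T ⊆ E}.Finite := by
    refine Set.Finite.of_injOn (f := fun E => E ∩ {x : List α | x.length < T})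
      (t := {b | b ⊆ {x : List α | x.length < T}}) ?_ ?_ hfin.finite_subsets
    · intro E _
      exact Set.inter_subset_right
    · intro E hE F hF hEF
      have hEF' : E ∩ {x : List α | x.length < T} = F ∩ {x : List α | x.length < T} := hEF
      ext x
      rcases lt_or_ge x.length T with hx | hx
      · constructor
        · intro hxE
          have : x ∈ E ∩ {x : List α | x.length < T} := ⟨hxE, hx⟩
          rw [hEF'] at this
          exact this.1
        · intro hxF
          have : x ∈ F ∩ {x : List α | x.length < T} := ⟨hxF, hx⟩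
          rw [← hEF'] at this
          exact this.1
      · exact ⟨fun _ => hF hx, fun _ => hE hx⟩
  have h2 : {E : Set (List α) | ∃ v s t, v.length < T ∧ E = Dv v (Lg f s t)}.Finite := by
    have h3 : ({v : List α | v.length < T} ×ˢ
        (Set.univ : Set (Option σ × Option σ))).Finite := hfin.prod Set.finite_univ
    refine (h3.image fun p => Dv p.1 (Lg f p.2.1 p.2.2)).subset ?_
    rintro E ⟨v, s, t, hv, rfl⟩
    exact ⟨(v, (s, t)), ⟨hv, Set.mem_univ _⟩, rfl⟩
  have h3 : {E : Set (List α) | ∃ x : List α, x.length < T ∧ E = {x}}.Finite := by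
    refine (hfin.image fun x => ({x} : Set (List α))).subset ?_
    rintro E ⟨x, hx, rfl⟩
    exact ⟨x, hx, rfl⟩
  have h4 : {E : Set (List α) | ∃ j, j ≤ T ∧ E = Gj α j}.Finite := by
    refine ((Set.finite_Iic T).image fun j => Gj α j).subset ?_
    rintro E ⟨j, hj, rfl⟩
    exact ⟨j, hj, rfl⟩
  refine (((h1.union h2).union h3).union h4).subset ?_
  rintro E (⟨v, s, t, rfl⟩ | hE | hE)
  · left
    left
    rcases lt_or_ge v.length T with hv | hv
    · exact Or.inr ⟨v, s, t, hv, rfl⟩
    · left
      intro u hu
      cases s with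
      | none => exact ⟨u ++ v, Or.inr (foldl_none f hf _), Sh.concat u v⟩
      | some s =>
        obtain ⟨w, hw, hw'⟩ := h s u v hu hv
        exact ⟨w, Or.inr hw', hw⟩
  · exact Or.inl (Or.inr hE)
  · exact Or.inr hE

end Pool.Agent.H415.DLA1
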