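import Pool.Agent.H724.DL.Stm

/-! DL-A3 for helper724: parallel decompositions. -/

set_option autoImplicit false

namespace Pool.Agent.H747.DLA3

open Pool.Agent.H724.DL

/-- a relation is a union of products if every element lies in a product contained in it -/
theorem fuo_of {α : Type} {S : Set (Set (List α))} {R : Set (List α × List α)}
    (h : ∀ x y, (x, y) ∈ R → ∃ A ∈ S, ∃ B ∈ S, x ∈ A ∧ y ∈ B ∧ ∀ a ∈ A, ∀ b ∈ B, (a, b) ∈ R) :
    FUO S R := by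
  refine ⟨{q | q.1 ∈ S ∧ q.2 ∈ S ∧ ∀ a ∈ q.1, ∀ b ∈ q.2, (a, b) ∈ R}, ?_, ?_⟩
  · rintro ⟨A, B⟩ ⟨hA, hB, _⟩
    exact ⟨hA, hB⟩
  · ext ⟨x, y⟩
    simp only [Set.mem_iUnion, Set.mem_prod]
    constructor
    · intro hxy
      obtain ⟨A, hA, B, hB, hx, hy, hR⟩ := h x y hxy
      exact ⟨(A, B), ⟨hA, hB, hR⟩, ⟨hx, hy⟩⟩
    · rintro ⟨⟨A, B⟩, ⟨_, _, hR⟩, hx, hy⟩
      exact hR x hx y hy

theorem foldl_none {α σ : Type} {f : Option σ → α → Option σ} (hf : ∀ a, f none a = none)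
    (w : List α) : w.foldl f none = none := by
  induction w with
  | nil => rfl
  | cons a w ih => rw [List.foldl_cons, hf, ih]

/-- **DL-A3** -/
theorem a3 : S_A3 := by
  intro α σ f hf T h L hL
  apply fuo_of
  rcases hL with ⟨v, s, t, rfl⟩ | ⟨x0, hx0, rfl⟩ | ⟨j, hj, rfl⟩
  · rintro x y ⟨w, ⟨w', hw', hs'⟩, hs⟩
    by_cases hx : x.length < T
    · obtain ⟨z, h1, h2⟩ := Sh.assoc_iff.1 ⟨w, hs, hs'⟩
      refine ⟨{x}, Or.inr (Or.inl ⟨x, hx, rfl⟩), Dv z (Lg f s t), Or.inl ⟨z, s, t, rfl⟩, rfl,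
        ⟨w', hw', h2.symm⟩, ?_⟩
      rintro a rfl b ⟨w2, hw2, hs2⟩
      obtain ⟨w3, h3, h4⟩ := Sh.assoc_iff.2 ⟨z, h1, hs2.symm⟩
      exact ⟨w3, ⟨w2, hw2, h4⟩, h3⟩
    by_cases hy : y.length < T
    · obtain ⟨z, h1, h2⟩ := Sh.assoc_iff.1 ⟨w, hs.symm, hs'⟩
      refine ⟨Dv z (Lg f s t), Or.inl ⟨z, s, t, rfl⟩, {y}, Or.inr (Or.inl ⟨y, hy, rfl⟩),
        ⟨w', hw', h2.symm⟩, rfl, ?_⟩
      rintro a ⟨w2, hw2, hs2⟩ b rfl
      obtain ⟨w3, h3, h4⟩ := Sh.assoc_iff.2 ⟨z, h1, hs2.symm⟩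
      exact ⟨w3, ⟨w2, hw2, h4⟩, h3.symm⟩
    · have hG : Gj α T ∈ SysA f T := Or.inr (Or.inr ⟨T, le_rfl, rfl⟩)
      refine ⟨Gj α T, hG, Gj α T, hG, not_lt.1 hx, not_lt.1 hy, ?_⟩
      intro a ha b hb
      have key : ∃ w, Sh w a b ∧ w.foldl f s = none := by
        cases s with
        | none => exact ⟨a ++ b, Sh.concat a b, foldl_none hf _⟩
        | some s => exact h s a b ha hb
      obtain ⟨w2, h1, h2⟩ := key
      refine ⟨w2, ⟨w2 ++ v, Or.inr ?_, Sh.concat w2 v⟩, h1⟩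
      rw [List.foldl_append, h2, foldl_none hf]
  · rintro x y ⟨w, hw, hs⟩
    have hw' : w = x0 := hw
    subst hw'
    have hl : w.length = x.length + y.length := hs.length_eq
    refine ⟨{x}, Or.inr (Or.inl ⟨x, by omega, rfl⟩), {y}, Or.inr (Or.inl ⟨y, by omega, rfl⟩), rfl,
      rfl, ?_⟩
    rintro a rfl b rfl
    exact ⟨w, rfl, hs⟩
  · rintro x y ⟨w, hw, hs⟩
    have hl : w.length = x.length + y.length := hs.length_eq
    have hw' : j ≤ w.length := hw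
    by_cases hx : x.length < j
    · refine ⟨{x}, Or.inr (Or.inl ⟨x, by omega, rfl⟩), Gj α (j - x.length),
        Or.inr (Or.inr ⟨_, by omega, rfl⟩), rfl, ?_, ?_⟩
      · show j - x.length ≤ y.length
        omega
      · rintro a rfl b hb
        have hb' : j - a.length ≤ b.length := hb
        refine ⟨a ++ b, ?_, Sh.concat a b⟩
        show j ≤ (a ++ b).length
        rw [List.length_append]
        omega
    · refine ⟨Gj α j, Or.inr (Or.inr ⟨j, hj, rfl⟩), Gj α 0, Or.inr (Or.inr ⟨0, Nat.zero_le _, rfl⟩),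
        not_lt.1 hx, Nat.zero_le _, ?_⟩
      intro a ha b _
      have ha' : j ≤ a.length := ha
      refine ⟨a ++ b, ?_, Sh.concat a b⟩
      show j ≤ (a ++ b).length
      rw [List.length_append]
      omega

end Pool.Agent.H747.DLA3
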