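import Pool.Agent.H724.DL.Stm

set_option autoImplicit false

namespace Pool.Agent.H729.DL

open Pool.Agent.H724.DL

theorem can_ : Pool.Agent.H724.DL.S_CAN := by
  intro Γ c m A
  have hmod : (5 ^ m * A) % 5 ^ m = 0 := Nat.mul_mod_right _ _
  have key : ∀ l t, l < m → t % 5 ^ (l + 1) = 5 ^ l →
      lv (5 ^ m * A + t) = l ∧ dg (5 ^ m * A + t) = 1 ∧ pr (5 ^ m * A + t) = 5 ^ m * A + t - 5 ^ l := by
    intro l t hl h
    have h1 : (5 ^ m * A + t) % 5 ^ (l + 1) = 1 * 5 ^ l := by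
      rw [add_mod_low hl hmod, h, one_mul]
    have h2 := lv_of_low (by norm_num) (by norm_num) h1
    have h3 := dg_of_low (by norm_num) (by norm_num) h1
    exact ⟨h2, h3, by rw [pr, h2, h3, one_mul]⟩
  refine ⟨?_, ?_, ?_, ?_, ?_⟩
  · intro t _ ht l r h0 h5 h
    have hl := low_lt h0 h ht
    have h1 : (5 ^ m * A + t) % 5 ^ (l + 1) = r * 5 ^ l := by
      rw [add_mod_low hl hmod, h]
    show ((lv (5 ^ m * A + t) : ZMod 3), (dg (5 ^ m * A + t) : ZMod 5)) = _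
    rw [lv_of_low h0 h5 h1, dg_of_low h0 h5 h1]
  · intro hA l hl t _ h
    obtain ⟨_, _, h3⟩ := key l t hl h
    have h4 : 5 ^ l < 5 ^ m := Nat.pow_lt_pow_right (by norm_num) hl
    have h5 : 5 ^ m ≤ 5 ^ m * A := Nat.le_mul_of_pos_right _ hA
    show (if pr (5 ^ m * A + t) = 0 then 0 else (dg (pr (5 ^ m * A + t)) : ZMod 5)) =
      (dg (5 ^ m * A + t - 5 ^ l) : ZMod 5)
    rw [h3, if_neg (by omega)]
  · intro hA l hl
    have h0 : 5 ^ l % 5 ^ (l + 1) = 5 ^ l :=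
      Nat.mod_eq_of_lt (Nat.pow_lt_pow_right (by norm_num) (by omega))
    obtain ⟨h1, _, h3⟩ := key l (5 ^ l) hl h0
    have h5 : 0 < 5 ^ m * A := Nat.mul_pos (by positivity) hA
    show (if pr (5 ^ m * A + 5 ^ l) = 0 then c 0 0 else
      c (lv (pr (5 ^ m * A + 5 ^ l))) (lv (5 ^ m * A + 5 ^ l))) = _
    rw [h3, h1, Nat.add_sub_cancel, if_neg (by omega), lv_mul_pow m hA]
  · intro hA
    show ((lv (5 ^ m * A) : ZMod 3), (dg (5 ^ m * A) : ZMod 5)) = _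
    rw [lv_mul_pow m hA, dg_mul_pow m hA]
  · intro hA5
    have hA : 0 < A := by
      rcases Nat.eq_zero_or_pos A with h | h
      · rw [h] at hA5
        exact absurd rfl hA5
      · exact h
    have h1 : A % 5 ^ (0 + 1) = (A % 5) * 5 ^ 0 := by simp
    have h2 := lv_of_low (Nat.pos_of_ne_zero hA5) (Nat.mod_lt _ (by norm_num)) h1
    have h3 := dg_of_low (Nat.pos_of_ne_zero hA5) (Nat.mod_lt _ (by norm_num)) h1
    show ((lv (5 ^ m * A) : ZMod 3), (dg (5 ^ m * A) : ZMod 5)) = _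
    rw [lv_mul_pow m hA, dg_mul_pow m hA, h2, h3, add_zero, ZMod.natCast_mod]

end Pool.Agent.H729.DL
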