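import Pool.Agent.H724.DL.Stm

/-! DL-COL: the window automaton sees exactly the columns (helper118 for helper724). -/

set_option autoImplicit false

namespace Pool.Agent.H118.DL

open Pool.Agent.H724.DL

theorem col : S_COL := by
  intro Γ W R n g X Y m i1 j1 hu hpd hx hy
  have hcol : ∀ l, l < m → IsCol (X (i1 + 5 ^ l)) (Y (j1 + 5 ^ l)) := by
    intro l hl
    have hlt : 5 ^ l < 5 ^ m := Nat.pow_lt_pow_right (by norm_num) hl
    have hmod : 5 ^ l % 5 ^ (l + 1) = 5 ^ l :=
      Nat.mod_eq_of_lt (Nat.pow_lt_pow_right (by norm_num) (by omega))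
    have h1 := hu (5 ^ l) (pow5_pos l) hlt l 1 (by norm_num) (by norm_num) (by rw [hmod, one_mul])
    have h2 := hpd l hl (5 ^ l) hlt hmod
    refine ⟨?_, ?_, ?_⟩
    · rw [h1.1]; simp
    · rw [h2.1, Nat.add_sub_cancel, hx]
    · rw [h2.2, Nat.add_sub_cancel, hy]
  have hno : ∀ t, 0 < t → t < 5 ^ m → (∀ l, t ≠ 5 ^ l) →
      ¬ IsCol (X (i1 + t)) (Y (j1 + t)) := by
    intro t h0 ht hne hc
    obtain ⟨l, r, hr0, hr5, hmod⟩ := exists_low h0
    have hl : l < m := low_lt hr0 hmod ht
    have h1 := hu t h0 ht l r hr0 hr5 hmod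
    obtain ⟨hc1, hc2, hc3⟩ := hc
    rw [h1.1] at hc1
    have hr1 : r = 1 := by
      have hc1' : ((r : ℕ) : ZMod 5) = 1 := hc1
      clear hc1 h1 hmod hl
      interval_cases r
      · rfl
      · exact absurd hc1' (by decide)
      · exact absurd hc1' (by decide)
      · exact absurd hc1' (by decide)
    subst hr1
    have hmod' : t % 5 ^ (l + 1) = 5 ^ l := by rw [hmod, one_mul]
    have h2 := hpd l hl t ht hmod'
    have hlt : 5 ^ l < t := by
      have h3 : 5 ^ l ≤ t := by rw [← hmod']; exact Nat.mod_le _ _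
      exact lt_of_le_of_ne h3 (Ne.symm (hne l))
    obtain ⟨l', r', hr0', hr5', hmod2⟩ := exists_low (t := t - 5 ^ l) (by omega)
    have h3 := hu (t - 5 ^ l) (by omega) (by omega) l' r' hr0' hr5' hmod2
    have e1 : i1 + t - 5 ^ l = i1 + (t - 5 ^ l) := by omega
    have e2 : j1 + t - 5 ^ l = j1 + (t - 5 ^ l) := by omega
    rw [h2.1, e1, h3.1] at hc2
    rw [h2.2, e2, h3.2] at hc3
    exact absurd (hc2.symm.trans hc3) (by decide)
  have hconst : ∀ a b, a ≤ b → (∀ t, a < t → t ≤ b → ¬ IsCol (X (i1 + t)) (Y (j1 + t))) →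
      wwin R n g X Y i1 j1 b = wwin R n g X Y i1 j1 a := by
    intro a b hab
    induction b, hab using Nat.le_induction with
    | base => intro _; rfl
    | succ b hab ih =>
      intro h
      rw [wwin, if_neg (h (b + 1) (by omega) le_rfl)]
      exact ih fun t h1 h2 => h t h1 (by omega)
  have key : ∀ l, l ≤ m → wwin R n g X Y i1 j1 (5 ^ l - 1) =
      (wrun R n (fun l => if g then (X (i1 + 5 ^ l)).k else (Y (j1 + 5 ^ l)).k)
        (fun l => if g then (Y (j1 + 5 ^ l)).k else (X (i1 + 5 ^ l)).k) l,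
        ⟨min l (n + 1), by omega⟩) := by
    intro l
    induction l with
    | zero =>
      intro _
      rw [pow_zero, Nat.sub_self, wwin, wrun]
      refine Prod.ext rfl (Fin.ext ?_)
      simp
    | succ l ih =>
      intro hl
      have ih' := ih (by omega)
      have hpos := pow5_pos l
      have hlt : 5 ^ l < 5 ^ (l + 1) := Nat.pow_lt_pow_right (by norm_num) (by omega)
      have h5m : 5 ^ (l + 1) ≤ 5 ^ m := Nat.pow_le_pow_right (by norm_num) hl
      rw [hconst (5 ^ l) (5 ^ (l + 1) - 1) (by omega) ?_]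
      · obtain ⟨k, hk⟩ : ∃ k, 5 ^ l = k + 1 := ⟨5 ^ l - 1, by omega⟩
        have hk' : 5 ^ l - 1 = k := by omega
        rw [hk'] at ih'
        have hc := hcol l (by omega)
        rw [hk] at hc
        rw [hk, wwin, if_pos hc, ih', wrun]
        refine Prod.ext ?_ (Fin.ext ?_)
        · have hd : decide (min l (n + 1) = n) = decide (l = n) :=
            decide_eq_decide.mpr (by omega)
          simp only [hk, hd]
        · simp only [act]
          omega
      · intro t h1 h2
        refine hno t (by omega) (by omega) fun l' hl' => ?_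
        rcases Nat.lt_or_ge l l' with h | h
        · have : 5 ^ (l + 1) ≤ 5 ^ l' := Nat.pow_le_pow_right (by norm_num) h
          omega
        · have : 5 ^ l' ≤ 5 ^ l := Nat.pow_le_pow_right (by norm_num) h
          omega
  rw [key m le_rfl]

end Pool.Agent.H118.DL
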