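import Pool.Agent.H724.DL.Stm

/-!
# Project DL (helper724): DL-E1a, the two words lie on different sides (helper404)
-/

set_option autoImplicit false

namespace Pool.Agent.H404.DLE

open Pool.Agent.H724.DL

variable {Γ W : Type}

/-- the last phase on the side `b` -/
def last (b : Bool) (c : Core Γ W) : Option (ZMod 5) :=
  match b with
  | false => c.lx
  | true => c.ly

theorem cstep_last (R : RS Γ W) (f : Bool) (c : Core Γ W) (a : Bool × Pay Γ)
    (r : Core Γ W × Act) (h : cstep R f c a = some r) :
    phok (last a.1 c) a.2 ∧ last a.1 r.1 = some a.2.ph := by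
  obtain ⟨b, x⟩ := a
  cases b with
  | false =>
    simp only [cstep] at h
    split at h
    · next hc =>
      refine ⟨hc.2, ?_⟩
      split at h
      · cases h; rfl
      · cases h; rfl
    · cases h
  | true =>
    simp only [cstep] at h
    split at h
    · next hc =>
      refine ⟨hc.2, ?_⟩
      split at h
      · rw [Option.map_eq_some_iff] at h
        obtain ⟨r', _, rfl⟩ := h
        rfl
      · cases h; rfl
    · cases h

theorem fstep_last (R : RS Γ W) (n : ℕ) (s : Option (Core Γ W × Fin (n + 2)))
    (a : Bool × Pay Γ) (h : fstep R n s a ≠ none) :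
    ∃ t t', s = some t ∧ fstep R n s a = some t' ∧ phok (last a.1 t.1) a.2 ∧
      last a.1 t'.1 = some a.2.ph := by
  cases s with
  | none => exact absurd rfl h
  | some t =>
    cases hc : cstep R (decide (t.2.val = n)) t.1 a with
    | none =>
      exfalso
      apply h
      show (cstep R (decide (t.2.val = n)) t.1 a).map _ = none
      rw [hc]
      rfl
    | some r =>
      obtain ⟨h1, h2⟩ := cstep_last R _ _ _ _ hc
      refine ⟨t, (r.1, act n r.2 t.2), rfl, ?_, h1, h2⟩
      show (cstep R (decide (t.2.val = n)) t.1 a).map _ = some _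
      rw [hc]
      rfl

/-- two consecutive letters of the same side have consecutive phases -/
theorem two (R : RS Γ W) (n : ℕ) (s : Option (Core Γ W × Fin (n + 2)))
    (w : List (Bool × Pay Γ)) (a b : Bool × Pay Γ) (hab : a.1 = b.1)
    (h : (w ++ [a, b]).foldl (fstep R n) s ≠ none) : b.2.ph = a.2.ph + 1 := by
  rw [List.foldl_append] at h
  have h' : fstep R n (fstep R n (w.foldl (fstep R n) s) a) b ≠ none := h
  obtain ⟨t, t', e1, e2, h1, h2⟩ := fstep_last R n _ b h'
  have h3 : fstep R n (w.foldl (fstep R n) s) a ≠ none := by rw [e1]; exact fun h => by cases h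
  obtain ⟨u, u', e3, e4, h4, h5⟩ := fstep_last R n _ a h3
  have e5 : u' = t := Option.some.inj (e4.symm.trans e1)
  subst e5
  rw [← hab] at h1
  exact h1 _ h5

theorem pre_succ {α : Type} (X : ℕ → α) (n : ℕ) : pre X (n + 1) = pre X n ++ [X n] := by
  simp [pre, List.range_succ]

theorem not_both (R : RS Γ W) (n : ℕ) (s : Option (Core Γ W × Fin (n + 2)))
    (U V : ℕ → Bool × Pay Γ) (h : Av (fstep R n) s U V) (i j : ℕ) : (U i).1 ≠ (V j).1 := by
  intro hb
  have h1 : (V j).2.ph = (U i).2.ph + 1 := by
    refine two R n s (pre U i ++ pre V j) (U i) (V j) hb (h (i + 1) (j + 1) _ ?_)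
    rw [pre_succ, pre_succ]
    exact (Sh.concat _ _).append (Sh.left _ (Sh.right _ Sh.nil))
  have h2 : (U i).2.ph = (V j).2.ph + 1 := by
    refine two R n s (pre U i ++ pre V j) (V j) (U i) hb.symm (h (i + 1) (j + 1) _ ?_)
    rw [pre_succ, pre_succ]
    exact (Sh.concat _ _).append (Sh.right _ (Sh.left _ Sh.nil))
  rw [h1] at h2
  generalize (U i).2.ph = x at h2
  revert h2
  revert x
  decide

theorem e1a : S_E1a := by
  intro Γ W R n s U V h
  have nb := not_both R n s U V h
  cases hU : (U 0).1 with
  | false =>
    have hV : ∀ j, (V j).1 = true := by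
      intro j
      have := nb 0 j
      rw [hU] at this
      cases hv : (V j).1 with
      | false => exact absurd hv.symm this
      | true => rfl
    refine Or.inl ⟨fun i => ?_, hV⟩
    have := nb i 0
    rw [hV 0] at this
    cases hu : (U i).1 with
    | false => rfl
    | true => exact absurd hu this
  | true =>
    have hV : ∀ j, (V j).1 = false := by
      intro j
      have := nb 0 j
      rw [hU] at this
      cases hv : (V j).1 with
      | false => rfl
      | true => exact absurd hv.symm this
    refine Or.inr ⟨hV, fun i => ?_⟩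
    have := nb i 0
    rw [hV 0] at this
    cases hu : (U i).1 with
    | false => exact absurd hu this
    | true => rfl

end Pool.Agent.H404.DLE
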