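import Pool.Agent.H724.DL.Stm

/-! # DL-E1b: phases and local conditions (subtask of helper724, by helper94) -/

set_option autoImplicit false

namespace Pool.Agent.H94.DL

open Pool.Agent.H724.DL

variable {Γ W : Type}

theorem stepX (R : RS Γ W) (n : ℕ) (t t' : Core Γ W × Fin (n + 2)) (x : Pay Γ)
    (h : fstep R n (some t) (false, x) = some t') :
    lok x ∧ phok t.1.lx x ∧ t'.1.lx = some x.ph := by
  unfold fstep at h
  rw [Option.bind_some, Option.map_eq_some_iff] at h
  obtain ⟨r, hr, rfl⟩ := h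
  unfold cstep at hr
  simp only at hr
  split_ifs at hr with h1
  refine ⟨h1.1, h1.2, ?_⟩
  cases hp : t.1.pend with
  | none =>
    rw [hp] at hr
    simp only [Option.some.injEq] at hr
    rw [← hr]
  | some z =>
    rw [hp] at hr
    simp only [Option.some.injEq] at hr
    rw [← hr]

theorem stepY (R : RS Γ W) (n : ℕ) (t t' : Core Γ W × Fin (n + 2)) (y : Pay Γ)
    (h : fstep R n (some t) (true, y) = some t') :
    lok y ∧ phok t.1.ly y ∧ t'.1.ly = some y.ph := by
  unfold fstep at h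
  rw [Option.bind_some, Option.map_eq_some_iff] at h
  obtain ⟨r, hr, rfl⟩ := h
  unfold cstep at hr
  simp only at hr
  split_ifs at hr with h1
  refine ⟨h1.1, h1.2, ?_⟩
  cases hp : t.1.pend with
  | none =>
    rw [hp] at hr
    simp only [Option.some.injEq] at hr
    rw [← hr]
  | some z =>
    rw [hp] at hr
    simp only [Option.map_eq_some_iff] at hr
    obtain ⟨q, -, rfl⟩ := hr
    rfl

theorem pre_succ {α : Type} (X : ℕ → α) (n : ℕ) : pre X (n + 1) = pre X n ++ [X n] := by
  unfold pre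
  rw [List.range_succ, List.map_append]
  rfl

/-- the states along one tape -/
theorem path {α σ : Type} (f : Option σ → α → Option σ) (s : Option σ) (U : ℕ → α)
    (h : ∀ n, (pre U n).foldl f s ≠ none) (i : ℕ) :
    ∃ t t' t'' : σ, f (some t) (U i) = some t' ∧ f (some t') (U (i + 1)) = some t'' := by
  obtain ⟨t, ht⟩ := Option.ne_none_iff_exists'.1 (h i)
  obtain ⟨t', ht'⟩ := Option.ne_none_iff_exists'.1 (h (i + 1))
  obtain ⟨t'', ht''⟩ := Option.ne_none_iff_exists'.1 (h (i + 2))
  refine ⟨t, t', t'', ?_, ?_⟩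
  · rw [pre_succ, List.foldl_append, ht] at ht'
    exact ht'
  · rw [pre_succ, List.foldl_append, ht'] at ht''
    exact ht''

theorem e1b : S_E1b := by
  intro Γ W R n s X Y h i
  have hX : ∀ k, (pre (fun i => ((false, X i) : Bool × Pay Γ)) k).foldl (fstep R n) s ≠ none := by
    intro k
    exact h k 0 _ (Sh.nil_right _)
  have hY : ∀ k, (pre (fun i => ((true, Y i) : Bool × Pay Γ)) k).foldl (fstep R n) s ≠ none := by
    intro k
    exact h 0 k _ (Sh.nil_right _).symm
  obtain ⟨t, t', t'', h1, h2⟩ := path _ _ _ hX i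
  obtain ⟨r, r', r'', h3, h4⟩ := path _ _ _ hY i
  obtain ⟨a1, a2, a3⟩ := stepX R n _ _ _ h1
  obtain ⟨b1, b2, b3⟩ := stepX R n _ _ _ h2
  obtain ⟨c1, c2, c3⟩ := stepY R n _ _ _ h3
  obtain ⟨d1, d2, d3⟩ := stepY R n _ _ _ h4
  exact ⟨b2 _ a3, d2 _ c3, a1, c1⟩

end Pool.Agent.H94.DL
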