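import Pool.Agent.H724.DL.Stm

/-! # Project DL (helper724): DL-F0 and DL-PER -/

set_option autoImplicit false

namespace Pool.Agent.H724.DL.F0P

open Pool.Agent.H724.DL

theorem hi0 {Γ : Type} (X : ℕ → Pay Γ) (hph : ∀ i, (X (i + 1)).ph = (X i).ph + 1)
    (hl : ∀ i, lok (X i)) : Hi X 0 ((X 0).ph.val) 0 := by
  have h1 : ∀ i, (X i).ph = ((i + (X 0).ph.val : ℕ) : ZMod 5) := by
    intro i
    induction i with
    | zero =>
      rw [Nat.zero_add]
      exact (ZMod.natCast_zmod_val (X 0).ph).symm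
    | succ i ih =>
      rw [hph, ih]
      push_cast
      ring
  intro l hl0 r h0 h5 i _ hmod
  have hl1 : l = 0 := by omega
  subst hl1
  rw [Nat.zero_add, pow_one, pow_zero, mul_one] at hmod
  have h2 : (X i).ph = (r : ZMod 5) := by
    rw [h1 i, ← hmod, ZMod.natCast_mod]
  have h3 : (X i).ph ≠ 0 := by
    rw [h2]
    intro h
    have h4 := (ZMod.natCast_eq_zero_iff r 5).1 h
    have := Nat.le_of_dvd h0 h4
    omega
  rcases hl i with h | h
  · exact absurd h h3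
  · rw [h, h2, Nat.cast_zero]

end Pool.Agent.H724.DL.F0P

namespace Pool.Agent.H724.DL

theorem f0 : S_F0 := by
  intro Γ W R n X Y h
  exact ⟨_, _, F0P.hi0 X h.phx h.lx, F0P.hi0 Y h.phy h.ly⟩

theorem per : S_PER := by
  intro Γ X hX p n0 hp
  obtain ⟨l, p', hp', rfl⟩ := Nat.exists_eq_pow_mul_and_not_dvd hp.ne' 5 (by norm_num)
  obtain ⟨al, N, hH⟩ := hX l
  obtain ⟨r, h0, h5, hr⟩ : ∃ r, 0 < r ∧ r < 5 ∧ (r + p') % 5 ≠ 0 := by
    by_cases h : (1 + p') % 5 = 0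
    · exact ⟨2, by norm_num, by norm_num, by omega⟩
    · exact ⟨1, by norm_num, by norm_num, h⟩
  have hlt : r * 5 ^ l < 5 ^ (l + 1) := by
    rw [pow_succ, mul_comm]
    exact Nat.mul_lt_mul_of_pos_left h5 (pow5_pos l)
  obtain ⟨i, hi, him⟩ := exists_ge_mod (max n0 N) al (5 ^ (l + 1)) (r * 5 ^ l) hlt
  refine ⟨i, (le_max_left _ _).trans hi, ?_⟩
  intro heq
  have hN : N ≤ i := (le_max_right _ _).trans hi
  have u1 := hH l le_rfl r h0 h5 i hN him
  have e1 := low_decomp him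
  have e2 : i + 5 ^ l * p' + al = 5 ^ l * (5 * ((i + al) / 5 ^ (l + 1)) + r + p') := by
    calc i + 5 ^ l * p' + al = (i + al) + 5 ^ l * p' := by ring
      _ = 5 ^ l * (5 * ((i + al) / 5 ^ (l + 1)) + r) + 5 ^ l * p' := by rw [← e1]
      _ = _ := by ring
  have e3 : (i + 5 ^ l * p' + al) % 5 ^ (l + 1) = ((r + p') % 5) * 5 ^ l := by
    rw [e2, pow_succ, Nat.mul_mod_mul_left, mul_comm]
    congr 1
    omega
  have u2 := hH l le_rfl ((r + p') % 5) (Nat.pos_of_ne_zero hr) (Nat.mod_lt _ (by norm_num))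
    (i + 5 ^ l * p') (by omega) e3
  rw [heq, u1] at u2
  have h6 : (r : ZMod 5) = (((r + p') % 5 : ℕ) : ZMod 5) := congrArg Prod.snd u2
  rw [ZMod.natCast_mod, ZMod.natCast_eq_natCast_iff] at h6
  apply hp'
  have h7 : r % 5 = (r + p') % 5 := h6
  omega

end Pool.Agent.H724.DL
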