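import Pool.Agent.H724.DL.Stm

set_option autoImplicit false

namespace Pool.Agent.H724.DLINV1

open Pool.Agent.H724.DL

theorem inv1 (h : S_CAN) : S_INV1 := by
  intro Γ W R n c m A B om i d hI hom
  obtain ⟨l, r, h0, h5, hr⟩ := exists_low (Nat.succ_pos om)
  have hx := (h Γ c m A).1 (om + 1) (Nat.succ_pos om) hom l r h0 h5 hr
  have hy := (h Γ c m B).1 (om + 1) (Nat.succ_pos om) hom l r h0 h5 hr
  have he : (can c (5 ^ m * A + (om + 1))).u = (can c (5 ^ m * B + (om + 1))).u := by
    rw [hx, hy]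
  unfold dn
  simp only [Option.bind_some]
  unfold dstep
  rw [if_pos he]
  simp only [Option.map_some]
  refine ⟨_, _, rfl, ?_⟩
  cases d with
  | idle => exact hI
  | s1 l P Q => exact hI
  | s2 l P Q => exact hI
  | s4 l P Q => exact hI
  | s3 l P Q z w =>
    cases w with
    | none =>
      obtain ⟨a1, a2, a3, a4, a5, a6, a7, _⟩ := hI
      exact ⟨a1, a2, a3, a4, a5, a6, a7, fun w' hw => by cases hw⟩
    | some w =>
      obtain ⟨a1, a2, a3, a4, a5, a6, a7, a8⟩ := hI
      obtain ⟨b1, b2⟩ := a8 w rfl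
      by_cases hcol : IsCol (can c (5 ^ m * A + (om + 1))) (can c (5 ^ m * B + (om + 1)))
      · simp only [istep, if_pos hcol]
        refine ⟨a1, a2, a3, a4, a5, a6, a7, fun w' hw => ⟨b1, ?_⟩⟩
        simp only [wwin, if_pos hcol, ← b2]
        cases hw
        rfl
      · simp only [istep, if_neg hcol]
        refine ⟨a1, a2, a3, a4, a5, a6, a7, fun w' hw => ⟨b1, ?_⟩⟩
        simp only [wwin, if_neg hcol, ← b2]
        cases hw
        rfl
  | s5 l P Q z w =>
    cases w with
    | none =>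
      obtain ⟨a1, a2, a3, a4, a5, a6, a7, _⟩ := hI
      exact ⟨a1, a2, a3, a4, a5, a6, a7, fun w' hw => by cases hw⟩
    | some w =>
      obtain ⟨a1, a2, a3, a4, a5, a6, a7, a8⟩ := hI
      obtain ⟨b1, b2⟩ := a8 w rfl
      by_cases hcol : IsCol (can c (5 ^ m * A + (om + 1))) (can c (5 ^ m * B + (om + 1)))
      · simp only [istep, if_pos hcol]
        refine ⟨a1, a2, a3, a4, a5, a6, a7, fun w' hw => ⟨b1, ?_⟩⟩
        simp only [wwin, if_pos hcol, ← b2]
        cases hw
        rfl
      · simp only [istep, if_neg hcol]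
        refine ⟨a1, a2, a3, a4, a5, a6, a7, fun w' hw => ⟨b1, ?_⟩⟩
        simp only [wwin, if_neg hcol, ← b2]
        cases hw
        rfl

end Pool.Agent.H724.DLINV1
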