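import Pool.Agent.H724.DL.Stm

/-! Project DL (helper724), INV2a: the invariant, states `idle` and `s1` (helper553). -/

set_option autoImplicit false

namespace Pool.Agent.H553.DL

open Pool.Agent.H724.DL

section
variable {Γ W : Type}

theorem cast_eq {a r : ℕ} (h : a % 5 = r) : (a : ZMod 5) = (r : ZMod 5) := by
  rw [ZMod.natCast_eq_natCast_iff', h, ← h, Nat.mod_mod]

theorem mod_of_cast {a r : ℕ} (h : (a : ZMod 5) = (r : ZMod 5)) : a % 5 = r % 5 :=
  (ZMod.natCast_eq_natCast_iff' a r 5).1 h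

theorem ne_snd {a b : ZMod 5} (h : a ≠ b) (x y : ZMod 3) : (x, a) ≠ (y, b) := fun h1 =>
  h (congrArg Prod.snd h1)

theorem u_of (hC : S_CAN) (c : ℕ → ℕ → Γ) (m : ℕ) {A r : ℕ} (hr : A % 5 = r) (h0 : r ≠ 0) :
    (can c (5 ^ m * A)).u = ((m : ZMod 3), (r : ZMod 5)) := by
  obtain ⟨-, -, -, -, h5⟩ := hC Γ c m A
  rw [h5 (by rw [hr]; exact h0), cast_eq hr]

theorem resync_inv (hC : S_CAN) (R : RS Γ W) (n : ℕ) (c : ℕ → ℕ → Γ) (m A B : ℕ)
    (i : Fin (n + 2)) (hAB : A % 5 ≠ B % 5) :
    Inv R n c m (A + 1) (B + 1) 0 i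
      (resync (can c (5 ^ m * (A + 1))) (can c (5 ^ m * (B + 1)))) := by
  unfold resync
  split_ifs with h
  · obtain ⟨h1, h2, h3⟩ := h
    have hA : ∀ r, (A + 1) % 5 = r → r ≠ 0 → (r : ZMod 5) = 3 := by
      intro r hr h0
      rw [u_of hC c m hr h0] at h2
      exact h2
    have hB : ∀ r, (B + 1) % 5 = r → r ≠ 0 → (r : ZMod 5) = 1 := by
      intro r hr h0
      rw [u_of hC c m hr h0] at h3
      exact h3
    have hA' : (A + 1) % 5 = 0 ∨ (A + 1) % 5 = 3 := by
      by_cases h0 : (A + 1) % 5 = 0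
      · exact Or.inl h0
      · right
        have h4 : (((A + 1) % 5 : ℕ) : ZMod 5) = ((3 : ℕ) : ZMod 5) := hA _ rfl h0
        have h5 := mod_of_cast h4
        omega
    have hB' : (B + 1) % 5 = 0 ∨ (B + 1) % 5 = 1 := by
      by_cases h0 : (B + 1) % 5 = 0
      · exact Or.inl h0
      · right
        have h4 : (((B + 1) % 5 : ℕ) : ZMod 5) = ((1 : ℕ) : ZMod 5) := by
          rw [hB _ rfl h0, Nat.cast_one]
        have h5 := mod_of_cast h4
        omega
    rcases hA' with hA' | hA'
    · refine Or.inl ⟨rfl, rfl, Or.inl ⟨hA', ?_⟩⟩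
      omega
    · rcases hB' with hB' | hB'
      · exact Or.inl ⟨rfl, rfl, Or.inr ⟨hA', hB'⟩⟩
      · refine Or.inr ⟨?_, hA', hB', Finset.mem_univ _, Finset.mem_univ _⟩
        rw [u_of hC c m hA' (by norm_num)]
  · trivial

theorem inv2a (hC : S_CAN) : S_INV2a := by
  intro Γ W R n c m A B i hAB
  constructor
  · -- idle
    unfold InvNext
    by_cases hu : (can c (5 ^ m * (A + 1))).u = (can c (5 ^ m * (B + 1))).u
    · refine ⟨.idle, i, ?_, trivial⟩
      simp only [dn, Option.bind_some, dstep, if_pos hu, istep, Option.map_some, act]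
    · refine ⟨_, 0, ?_, resync_inv hC R n c m A B 0 hAB⟩
      simp only [dn, Option.bind_some, dstep, if_neg hu, vstep, Option.map_some, act]
  · intro l P Q hI
    unfold InvNext
    rcases hI with ⟨-, -, h | h⟩ | ⟨hl, hA, hB, hP, hQ⟩
    · have hx := u_of hC c m (A := A + 1) (r := 1) (by omega) (by norm_num)
      have hy := u_of hC c m (A := B + 1) (r := 2) (by omega) (by norm_num)
      have hu : (can c (5 ^ m * (A + 1))).u ≠ (can c (5 ^ m * (B + 1))).u := by
        rw [hx, hy]
        intro h1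
        exact ne_snd (by decide) _ _ h1
      have h4 : ¬ ((can c (5 ^ m * (A + 1))).u = (l, 4) ∧
          (can c (5 ^ m * (B + 1))).u = (l, 2)) := by
        rintro ⟨h1, -⟩
        rw [hx] at h1
        exact ne_snd (by decide) _ _ h1
      refine ⟨_, 0, ?_, resync_inv hC R n c m A B 0 hAB⟩
      simp only [dn, Option.bind_some, dstep, if_neg hu, vstep, if_neg h4, Option.map_some, act]
    · have hx := u_of hC c m (A := A + 1) (r := 4) (by omega) (by norm_num)
      have hy := u_of hC c m (A := B + 1) (r := 1) (by omega) (by norm_num)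
      have hu : (can c (5 ^ m * (A + 1))).u ≠ (can c (5 ^ m * (B + 1))).u := by
        rw [hx, hy]
        intro h1
        exact ne_snd (by decide) _ _ h1
      have h4 : ¬ ((can c (5 ^ m * (A + 1))).u = (l, 4) ∧
          (can c (5 ^ m * (B + 1))).u = (l, 2)) := by
        rintro ⟨-, h1⟩
        rw [hy] at h1
        exact ne_snd (by decide) _ _ h1
      refine ⟨_, 0, ?_, resync_inv hC R n c m A B 0 hAB⟩
      simp only [dn, Option.bind_some, dstep, if_neg hu, vstep, if_neg h4, Option.map_some, act]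
    · have hx := u_of hC c m (A := A + 1) (r := 4) (by omega) (by norm_num)
      have hy := u_of hC c m (A := B + 1) (r := 2) (by omega) (by norm_num)
      have hu : (can c (5 ^ m * (A + 1))).u ≠ (can c (5 ^ m * (B + 1))).u := by
        rw [hx, hy]
        intro h1
        exact ne_snd (by decide) _ _ h1
      have h4 : (can c (5 ^ m * (A + 1))).u = (l, 4) ∧
          (can c (5 ^ m * (B + 1))).u = (l, 2) := by
        rw [hx, hy, hl]
        exact ⟨rfl, rfl⟩
      have eA : (A + 1) / 5 = A / 5 := by omega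
      have eB : (B + 1) / 5 = B / 5 := by omega
      refine ⟨.s2 l P Q, 0, ?_, hl, Or.inl ⟨by omega, by omega, ?_, ?_⟩⟩
      · simp only [dn, Option.bind_some, dstep, if_neg hu, vstep, if_pos h4, Option.map_some, act]
      · rw [eA]; exact hP
      · rw [eB]; exact hQ

end

end Pool.Agent.H553.DL
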