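import Pool.Agent.H724.DL.Stm

/-!
# DL-INV2b: the invariant, state `s2`
-/

set_option autoImplicit false

namespace Pool.Agent.H603.DLI

open Pool.Agent.H724.DL

theorem cast5 {a b : ℕ} (h : a % 5 = b % 5) : (a : ZMod 5) = (b : ZMod 5) :=
  (ZMod.natCast_eq_natCast_iff' a b 5).2 h

theorem cast5' {a b : ℕ} (h : (a : ZMod 5) = (b : ZMod 5)) : a % 5 = b % 5 :=
  (ZMod.natCast_eq_natCast_iff' a b 5).1 h

/-- the letter at `5 ^ m * A` for `A` divisible by `5` exactly once -/
theorem u_mul5 (h : S_CAN) {Γ : Type} (c : ℕ → ℕ → Γ) (m A : ℕ) (hA : 0 < A) (h5 : A % 5 = 0)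
    (hne : ((A / 5 : ℕ) : ZMod 5) ≠ 0) :
    (can c (5 ^ m * A)).u = ((m : ZMod 3) + 1, ((A / 5 : ℕ) : ZMod 5)) := by
  have h1 := (h Γ c m A).2.2.2.1 hA
  have hr0 : 0 < (A / 5) % 5 := by
    rcases Nat.eq_zero_or_pos ((A / 5) % 5) with h0 | h0
    · exfalso
      apply hne
      have := cast5 (a := A / 5) (b := 0) (by omega)
      rw [this, Nat.cast_zero]
    · exact h0
  have hr5 : (A / 5) % 5 < 5 := Nat.mod_lt _ (by norm_num)
  have hlow : A % 5 ^ (1 + 1) = (A / 5) % 5 * 5 ^ 1 := by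
    have e : (5 : ℕ) ^ (1 + 1) = 25 := by norm_num
    rw [e, pow_one]
    omega
  rw [h1, lv_of_low hr0 hr5 hlow, dg_of_low hr0 hr5 hlow, Nat.cast_add, Nat.cast_one,
    ZMod.natCast_mod]

theorem inv2b (h : S_CAN) : S_INV2b := by
  intro Γ W R n c m A B i l P Q hI
  obtain ⟨hl, hI⟩ := hI
  subst hl
  rcases hI with ⟨hA, hB, hP, hQ⟩ | ⟨hA0, hA, hB, hu, hP, hQ⟩
  · -- first case
    have hyu : (can c (5 ^ m * (B + 1))).u = ((m : ZMod 3), (3 : ZMod 5)) := by
      have h1 := (h Γ c m (B + 1)).2.2.2.2 (by omega)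
      rw [h1]
      have := cast5 (a := B + 1) (b := 3) (by omega)
      rw [this]
      rfl
    have hA' : (A + 1) / 5 = A / 5 + 1 := by omega
    have hB' : (B + 1) / 5 = B / 5 := by omega
    have hP' : (((A + 1) / 5 : ℕ) : ZMod 5) - 1 ∈ P := by
      rw [hA', Nat.cast_add, Nat.cast_one, add_sub_cancel_right]
      exact hP
    by_cases hx : (can c (5 ^ m * (A + 1))).u = ((m : ZMod 3), (3 : ZMod 5))
    · refine ⟨.s2 (m : ZMod 3) P Q, i, ?_, ?_⟩
      · have e : (can c (5 ^ m * (A + 1))).u = (can c (5 ^ m * (B + 1))).u := by rw [hx, hyu]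
        simp only [dn, Option.bind_some, dstep, if_pos e, istep, Option.map_some, act]
      · refine ⟨rfl, Or.inr ⟨by omega, by omega, by omega, hx, hP', ?_⟩⟩
        rw [hB']
        exact hQ
    · have e : (can c (5 ^ m * (A + 1))).u ≠ (can c (5 ^ m * (B + 1))).u := by rw [hyu]; exact hx
      have hmem : (((A + 1) / 5 : ℕ) : ZMod 5) ∈
          upd (m : ZMod 3) P (can c (5 ^ m * (A + 1))).u := by
        rw [mem_upd]
        refine ⟨hP', ?_⟩
        by_cases h0 : (((A + 1) / 5 : ℕ) : ZMod 5) = 0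
        · exact Or.inl h0
        · exact Or.inr (u_mul5 h c m (A + 1) (by omega) (by omega) h0)
      have hne : upd (m : ZMod 3) P (can c (5 ^ m * (A + 1))).u ≠ ∅ :=
        Finset.ne_empty_of_mem hmem
      refine ⟨.s3 (m : ZMod 3) (upd (m : ZMod 3) P (can c (5 ^ m * (A + 1))).u) Q
        (can c (5 ^ m * (A + 1))).u.2
        (if upd (m : ZMod 3) P (can c (5 ^ m * (A + 1))).u = {2} then some R.w0 else none), 0,
        ?_, ?_⟩
      · simp only [dn, Option.bind_some, dstep, if_neg e, vstep, if_pos hyu, if_neg hne,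
          Option.map_some, act]
      · refine ⟨rfl, by omega, by omega, by omega, hmem, ?_, rfl, ?_⟩
        · rw [hB']
          exact hQ
        · intro w' hw'
          by_cases h2 : upd (m : ZMod 3) P (can c (5 ^ m * (A + 1))).u = {2}
          · rw [if_pos h2] at hw'
            refine ⟨h2, ?_⟩
            have h3 : R.w0 = w' := Option.some.inj hw'
            rw [← h3]
            rfl
          · rw [if_neg h2] at hw'
            exact absurd hw' (by simp)
  · -- second case
    have hxu : (can c (5 ^ m * (A + 1))).u = ((m : ZMod 3), (1 : ZMod 5)) := by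
      have h1 := (h Γ c m (A + 1)).2.2.2.2 (by omega)
      rw [h1]
      have := cast5 (a := A + 1) (b := 1) (by omega)
      rw [this, Nat.cast_one]
    have hyu : (can c (5 ^ m * (B + 1))).u = ((m : ZMod 3), (4 : ZMod 5)) := by
      have h1 := (h Γ c m (B + 1)).2.2.2.2 (by omega)
      rw [h1]
      have := cast5 (a := B + 1) (b := 4) (by omega)
      rw [this]
      rfl
    have hA' : (A + 1) / 5 = A / 5 := by omega
    have hB' : (B + 1) / 5 = B / 5 := by omega
    have h14 : (1 : ZMod 5) ≠ 4 := by decide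
    have h43 : (4 : ZMod 5) ≠ 3 := by decide
    have e : (can c (5 ^ m * (A + 1))).u ≠ (can c (5 ^ m * (B + 1))).u := by
      rw [hxu, hyu]
      intro h0
      exact h14 (congrArg Prod.snd h0)
    have e2 : (can c (5 ^ m * (B + 1))).u ≠ ((m : ZMod 3), (3 : ZMod 5)) := by
      rw [hyu]
      intro h0
      exact h43 (congrArg Prod.snd h0)
    have hmem : ((A / 5 : ℕ) : ZMod 5) ∈ upd (m : ZMod 3) P ((m : ZMod 3), (3 : ZMod 5)) := by
      rw [mem_upd]
      refine ⟨hP, ?_⟩
      by_cases h0 : ((A / 5 : ℕ) : ZMod 5) = 0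
      · exact Or.inl h0
      · exfalso
        have h1 := u_mul5 h c m A hA0 hA h0
        rw [hu] at h1
        have h2 : (m : ZMod 3) = (m : ZMod 3) + 1 := congrArg Prod.fst h1
        have h3 : (1 : ZMod 3) ≠ 0 := by decide
        apply h3
        have h4 : (m : ZMod 3) + 0 = (m : ZMod 3) + 1 := by rw [add_zero]; exact h2
        exact (add_left_cancel h4).symm
    have hne : upd (m : ZMod 3) P ((m : ZMod 3), (3 : ZMod 5)) ≠ ∅ := Finset.ne_empty_of_mem hmem
    have hpd : (can c (5 ^ m * (A + 1))).pd = 3 := by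
      have h1 := (h Γ c (m + 1) (A / 5)).2.1 (by omega) m (by omega) (5 ^ m)
        (Nat.pow_lt_pow_right (by norm_num) (by omega))
        (Nat.mod_eq_of_lt (Nat.pow_lt_pow_right (by norm_num) (by omega)))
      have h2 : 5 ^ (m + 1) * (A / 5) = 5 ^ m * A := by
        rw [pow_succ, mul_assoc]
        congr 1
        omega
      rw [h2, Nat.add_sub_cancel, hu] at h1
      have h3 : 5 ^ m * (A + 1) = 5 ^ m * A + 5 ^ m := by ring
      rw [h3]
      exact h1
    have hor : ¬ (upd (m : ZMod 3) P ((m : ZMod 3), (3 : ZMod 5)) = ∅ ∨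
        (can c (5 ^ m * (A + 1))).pd ≠ 3) := by
      rintro (h0 | h0)
      · exact hne h0
      · exact h0 hpd
    refine ⟨.s4 (m : ZMod 3) (upd (m : ZMod 3) P ((m : ZMod 3), (3 : ZMod 5))) Q, 0, ?_, ?_⟩
    · simp only [dn, Option.bind_some, dstep, if_neg e, vstep, if_neg e2,
        if_pos (And.intro hxu hyu), if_neg hor, Option.map_some, act]
    · refine ⟨rfl, Or.inl ⟨by omega, by omega, ?_, ?_⟩⟩
      · rw [hA']
        exact hmem
      · rw [hB']
        exact hQ

end Pool.Agent.H603.DLI
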