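import Pool.Agent.H724.DL.Stm

/-! DL-INV2c: the invariant, state `s3` with window. -/

set_option autoImplicit false

namespace Pool.Agent.H980.DLinv

open Pool.Agent.H724.DL

theorem cast_of_mod {A r : ℕ} (h : A % 5 = r) : ((A : ℕ) : ZMod 5) = (r : ZMod 5) := by
  rw [← h]
  exact (ZMod.natCast_mod A 5).symm

theorem mod_of_cast {A r : ℕ} (hr : r < 5) (h : ((A : ℕ) : ZMod 5) = (r : ZMod 5)) : A % 5 = r := by
  have h1 := (ZMod.natCast_eq_natCast_iff' A r 5).mp h
  rw [Nat.mod_eq_of_lt hr] at h1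
  exact h1

/-- The window is not bad. -/
theorem window (hcan : S_CAN) (hcol : S_COL) {Γ W : Type} (R : RS Γ W) (n : ℕ) (c : ℕ → ℕ → Γ)
    (m A B : ℕ) (hrow : ∀ m, rowOK R n m (c m) (c (m + 1))) (hA0 : 0 < A) (hA : A % 5 = 0)
    (hB : B % 5 = 3) (hA2 : A / 5 % 5 = 2) :
    R.bad (wwin R n false (can c) (can c) (5 ^ m * A) (5 ^ m * B) (5 ^ m - 1)).1 = false := by
  have hB0 : 0 < B := by omega
  have hAlow : A % 5 ^ (1 + 1) = 2 * 5 ^ 1 := by norm_num; omega
  have hlvA : lv A = 1 := lv_of_low (by norm_num) (by norm_num) hAlow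
  have hdgA : dg A = 2 := dg_of_low (by norm_num) (by norm_num) hAlow
  have hBlow : B % 5 ^ (0 + 1) = 3 * 5 ^ 0 := by norm_num; omega
  have hlvB : lv B = 0 := lv_of_low (by norm_num) (by norm_num) hBlow
  obtain ⟨a1, a2, a3, a4, a5⟩ := hcan Γ c m A
  obtain ⟨b1, b2, b3, b4, b5⟩ := hcan Γ c m B
  have h := hcol Γ W R n false (can c) (can c) m (5 ^ m * A) (5 ^ m * B)
    (fun t ht1 ht2 l r hr1 hr2 htr => ⟨a1 t ht1 ht2 l r hr1 hr2 htr, b1 t ht1 ht2 l r hr1 hr2 htr⟩)
    (fun l hl t ht htl => ⟨a2 hA0 l hl t ht htl, b2 hB0 l hl t ht htl⟩)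
    (by rw [a4 hA0, hdgA]; rfl)
    (by rw [b5 (by omega)]; exact cast_of_mod hB)
  rw [h]
  have h2 : wrun R n (fun l => if false = true then (can c (5 ^ m * A + 5 ^ l)).k
        else (can c (5 ^ m * B + 5 ^ l)).k)
      (fun l => if false = true then (can c (5 ^ m * B + 5 ^ l)).k
        else (can c (5 ^ m * A + 5 ^ l)).k) m = wrun R n (c m) (c (m + 1)) m := by
    apply wrun_congr
    intro l hl
    constructor
    · show (if false = true then (can c (5 ^ m * A + 5 ^ l)).k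
        else (can c (5 ^ m * B + 5 ^ l)).k) = c m l
      rw [if_neg (by decide), b3 hB0 l hl, hlvB, Nat.add_zero]
    · show (if false = true then (can c (5 ^ m * B + 5 ^ l)).k
        else (can c (5 ^ m * A + 5 ^ l)).k) = c (m + 1) l
      rw [if_neg (by decide), a3 hA0 l hl, hlvA]
  rw [h2]
  exact hrow m

theorem inv2c (hcan : S_CAN) (hcol : S_COL) : S_INV2c := by
  intro Γ W R n c m A B i hrow l P Q z w hI
  obtain ⟨hl, hA0, hA, hB, hAP, hBQ, hz, hw⟩ := hI
  subst hl
  have hB0 : 0 < B := by omega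
  have hxu : (can c (5 ^ m * (A + 1))).u = ((m : ZMod 3), (1 : ZMod 5)) := by
    rw [(hcan Γ c m (A + 1)).2.2.2.2 (by omega), cast_of_mod (r := 1) (by omega)]
    norm_num
  have hyu : (can c (5 ^ m * (B + 1))).u = ((m : ZMod 3), (4 : ZMod 5)) := by
    rw [(hcan Γ c m (B + 1)).2.2.2.2 (by omega), cast_of_mod (r := 4) (by omega)]
    norm_num
  have hne : ¬ ((can c (5 ^ m * (A + 1))).u = (can c (5 ^ m * (B + 1))).u) := by
    rw [hxu, hyu]
    intro h
    have h1 : (1 : ZMod 5) = 4 := congrArg Prod.snd h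
    exact absurd h1 (by decide)
  have hpd : (can c (5 ^ m * (A + 1))).pd = z := by
    have hA5 : 5 ^ (m + 1) * (A / 5) = 5 ^ m * A := by
      have h1 : 5 * (A / 5) = A := by omega
      rw [pow_succ, Nat.mul_assoc, h1]
    have h2 := (hcan Γ c (m + 1) (A / 5)).2.1 (by omega) m (by omega) (5 ^ m)
      (Nat.pow_lt_pow_right (by norm_num) (by omega))
      (Nat.mod_eq_of_lt (Nat.pow_lt_pow_right (by norm_num) (by omega)))
    rw [hA5, Nat.add_sub_cancel] at h2
    have h3 : 5 ^ m * (A + 1) = 5 ^ m * A + 5 ^ m := by ring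
    rw [h3, h2, hz]
  have hwb : wbad R w = false := by
    cases w with
    | none => rfl
    | some w' =>
      obtain ⟨hP, hwin⟩ := hw w' rfl
      rw [hP, Finset.mem_singleton] at hAP
      have h1 : A / 5 % 5 = 2 := mod_of_cast (by norm_num) (by rw [hAP]; rfl)
      have h2 := window hcan hcol R n c m A B hrow hA0 hA hB h1
      rw [← hwin] at h2
      exact h2
  refine ⟨.s4 (m : ZMod 3) P Q, 0, ?_, ?_⟩
  · show ((dstep R (decide (i.val = n)) (.s3 (m : ZMod 3) P Q z w) (can c (5 ^ m * (A + 1)))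
      (can c (5 ^ m * (B + 1)))).map fun r => (r.1, act n r.2 i)) = _
    unfold dstep
    rw [if_neg hne]
    have hv : vstep R (.s3 (m : ZMod 3) P Q z w) (can c (5 ^ m * (A + 1)))
        (can c (5 ^ m * (B + 1))) = some (.s4 (m : ZMod 3) P Q) := by
      show (if (can c (5 ^ m * (A + 1))).u = ((m : ZMod 3), (1 : ZMod 5)) ∧
          (can c (5 ^ m * (B + 1))).u = ((m : ZMod 3), (4 : ZMod 5)) then
        if (can c (5 ^ m * (A + 1))).pd ≠ z ∨ wbad R w = true then none
          else some (DS.s4 (m : ZMod 3) P Q)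
        else some (resync (can c (5 ^ m * (A + 1))) (can c (5 ^ m * (B + 1))))) = _
      rw [if_pos ⟨hxu, hyu⟩, if_neg]
      rintro (h | h)
      · exact h hpd
      · rw [hwb] at h
        exact Bool.false_ne_true h
    rw [hv]
    rfl
  · have h1 : (A + 1) / 5 = A / 5 := by omega
    have h2 : (B + 1) / 5 = B / 5 := by omega
    refine ⟨rfl, Or.inl ⟨by omega, by omega, ?_, ?_⟩⟩
    · rw [h1]; exact hAP
    · rw [h2]; exact hBQ

end Pool.Agent.H980.DLinv
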