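import Pool.Agent.H724.DL.Stm

/-! DL-INV2e: the invariant in the state `s5` (window of the second kind). -/

set_option autoImplicit false

namespace Pool.Agent.H190.DL

open Pool.Agent.H724.DL

theorem cast_of_mod {a r : ℕ} (h : a % 5 = r) : (a : ZMod 5) = (r : ZMod 5) := by
  rw [← h, ZMod.natCast_mod]

theorem inv2e (h : S_CAN) (hc : S_COL) : S_INV2e := by
  intro Γ W R n c m A B i hrow l P Q z w hI
  obtain ⟨rfl, hB0, hA, hB, hAP, hBQ, hz, hw⟩ := hI
  have hA1 : (A + 1) % 5 = 3 := by omega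
  have hB1 : (B + 1) % 5 = 1 := by omega
  -- the letters
  have hxu : (can c (5 ^ m * (A + 1))).u = ((m : ZMod 3), (3 : ZMod 5)) := by
    rw [(h Γ c m (A + 1)).2.2.2.2 (by omega), cast_of_mod hA1]
    rfl
  have hyu : (can c (5 ^ m * (B + 1))).u = ((m : ZMod 3), (1 : ZMod 5)) := by
    rw [(h Γ c m (B + 1)).2.2.2.2 (by omega), cast_of_mod hB1]
    simp
  have h5 : 0 < 5 ^ m := pow5_pos m
  have hB5 : 5 * (B / 5) = B := by omega
  -- the digit of the parent
  have hyp : (can c (5 ^ m * (B + 1))).pd = z := by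
    have h1 := (h Γ c (m + 1) (B / 5)).2.1 (by omega) m (by omega) (5 ^ m)
      (by rw [pow_succ]; omega) (Nat.mod_eq_of_lt (by rw [pow_succ]; omega))
    have h2 : 5 ^ (m + 1) * (B / 5) = 5 ^ m * B := by
      rw [pow_succ, mul_assoc, hB5]
    rw [h2, Nat.add_sub_cancel] at h1
    rw [hz, ← h1, Nat.mul_succ]
  -- the window
  have hwb : wbad R w = false := by
    cases w with
    | none => rfl
    | some w' =>
      obtain ⟨hQ, hw'⟩ := hw w' rfl
      have hq : ((B / 5 : ℕ) : ZMod 5) = ((3 : ℕ) : ZMod 5) := by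
        rw [hQ, Finset.mem_singleton] at hBQ
        rw [hBQ]
        rfl
      have hq5 : (B / 5) % 5 = 3 := (ZMod.natCast_eq_natCast_iff' _ _ 5).1 hq
      have hBl : B % 5 ^ (1 + 1) = 3 * 5 ^ 1 := by
        norm_num
        omega
      have hlvB : lv B = 1 := lv_of_low (by norm_num) (by norm_num) hBl
      have hdgB : dg B = 3 := dg_of_low (by norm_num) (by norm_num) hBl
      have hAl : A % 5 ^ (0 + 1) = 2 * 5 ^ 0 := by
        norm_num
        omega
      have hlvA : lv A = 0 := lv_of_low (by norm_num) (by norm_num) hAl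
      have hA0 : 0 < A := by omega
      have h1 := hc Γ W R n true (can c) (can c) m (5 ^ m * A) (5 ^ m * B)
        (fun t ht0 ht l r hr hr5 hlr => ⟨(h Γ c m A).1 t ht0 ht l r hr hr5 hlr,
          (h Γ c m B).1 t ht0 ht l r hr hr5 hlr⟩)
        (fun l hl t ht hlt => ⟨(h Γ c m A).2.1 hA0 l hl t ht hlt,
          (h Γ c m B).2.1 hB0 l hl t ht hlt⟩)
        (by
          rw [(h Γ c m A).2.2.2.2 (by omega), cast_of_mod hA]
          rfl)
        (by
          rw [(h Γ c m B).2.2.2.1 hB0, hdgB]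
          rfl)
      rw [← hw'] at h1
      have h2 : w' = wrun R n (c m) (c (m + 1)) m := by
        refine Eq.trans h1 (wrun_congr R n m fun l hl => ⟨?_, ?_⟩)
        · show (can c (5 ^ m * A + 5 ^ l)).k = c m l
          rw [(h Γ c m A).2.2.1 hA0 l hl, hlvA, Nat.add_zero]
        · show (can c (5 ^ m * B + 5 ^ l)).k = c (m + 1) l
          rw [(h Γ c m B).2.2.1 hB0 l hl, hlvB]
      show R.bad w' = false
      rw [h2]
      exact hrow m
  -- the step
  have hne : ¬ (can c (5 ^ m * (A + 1))).u = (can c (5 ^ m * (B + 1))).u := by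
    rw [hxu, hyu]
    intro h1
    have h2 : (3 : ZMod 5) = 1 := congrArg Prod.snd h1
    exact absurd h2 (by decide)
  have hv : vstep R (.s5 (m : ZMod 3) P Q z w) (can c (5 ^ m * (A + 1)))
      (can c (5 ^ m * (B + 1))) = some (.s1 (m : ZMod 3) P Q) := by
    unfold vstep
    simp only
    rw [if_pos ⟨hxu, hyu⟩, if_neg]
    rintro (h1 | h1)
    · exact h1 hyp
    · rw [hwb] at h1
      exact absurd h1 (by decide)
  refine ⟨.s1 (m : ZMod 3) P Q, act n .zero i, ?_, Or.inr ⟨rfl, hA1, hB1, ?_, ?_⟩⟩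
  · unfold dn dstep
    simp only [Option.bind_some]
    rw [if_neg hne, hv]
    rfl
  · have e : (A + 1) / 5 = A / 5 := by omega
    rw [e]
    exact hAP
  · have e : (B + 1) / 5 = B / 5 := by omega
    rw [e]
    exact hBQ

end Pool.Agent.H190.DL
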