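import Pool.Agent.H724.DL.Mch

/-!
# Project DL (helper724): meaning of the row comparator (`S_M0`)
-/

set_option autoImplicit false

namespace Pool.Agent.H672.DL

open Pool.Agent.H724.DL Pool.Agent.Lib.helper21.Mach

variable {Q : Type}

/-- the previous column -/
def pv (lo hi : ℕ → Gm Q) : ℕ → Option (Gm Q × Gm Q)
  | 0 => none
  | l + 1 => some (lo l, hi l)

/-- the first column -/
def fs (lo hi : ℕ → Gm Q) : ℕ → Option (Gm Q × Gm Q)
  | 0 => none
  | _ + 1 => some (lo 0, hi 0)

theorem run_cnt (M : CM Q) (n : ℕ) (lo hi : ℕ → Gm Q) (m : ℕ) :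
    (wrun (rs M) n lo hi m).cnt.val = min m 3 := by
  induction m with
  | zero => rfl
  | succ m ih =>
    have e : (wrun (rs M) n lo hi (m + 1)).cnt =
        if (wrun (rs M) n lo hi m).cnt = 3 then 3 else (wrun (rs M) n lo hi m).cnt + 1 := rfl
    rw [e]
    obtain ⟨c, hc⟩ : ∃ c, c = (wrun (rs M) n lo hi m).cnt := ⟨_, rfl⟩
    rw [← hc] at ih ⊢
    split_ifs with h
    · rw [h] at ih
      have h3 : (3 : Fin 4).val = 3 := rfl
      rw [h3] at ih ⊢
      omega
    · have h1 : c.val ≠ 3 := fun h1 => h (Fin.ext h1)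
      have h2 : c.val < 4 := c.2
      have h3 : (c + 1).val = c.val + 1 := by
        rw [Fin.val_add_one]
        rw [if_neg]
        intro h4
        apply h1
        rw [h4]
        rfl
      rw [h3]
      omega

theorem run_fst (M : CM Q) (n : ℕ) (lo hi : ℕ → Gm Q) (m : ℕ) :
    (wrun (rs M) n lo hi m).fst = fs lo hi m := by
  induction m with
  | zero => rfl
  | succ m ih =>
    have e : (wrun (rs M) n lo hi (m + 1)).fst =
        some ((wrun (rs M) n lo hi m).fst.getD (lo m, hi m)) := rfl
    rw [e, ih]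
    cases m with
    | zero => rfl
    | succ m => rfl

theorem run_prv (M : CM Q) (n : ℕ) (lo hi : ℕ → Gm Q) (m : ℕ) :
    (wrun (rs M) n lo hi m).prv = pv lo hi m := by
  cases m with
  | zero => rfl
  | succ m => rfl

theorem run_nb (M : CM Q) (n : ℕ) (lo hi : ℕ → Gm Q) (m : ℕ) :
    (wrun (rs M) n lo hi m).nb = if n < m then some (lo n) else none := by
  induction m with
  | zero => rfl
  | succ m ih =>
    have e : (wrun (rs M) n lo hi (m + 1)).nb =
        if decide (m = n) = true then some (lo m) else (wrun (rs M) n lo hi m).nb := rfl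
    rw [e, ih]
    by_cases h : m = n
    · subst h
      rw [if_pos (by simp), if_pos (Nat.lt_succ_self m)]
    · rw [if_neg (by simpa using h)]
      by_cases h2 : n < m
      · rw [if_pos h2, if_pos (by omega)]
      · rw [if_neg h2, if_neg (by omega)]

theorem run_vio (M : CM Q) (n : ℕ) (lo hi : ℕ → Gm Q) (t : Bool) (m : ℕ) :
    (wrun (rs M) n lo hi m).vio t = false ↔
      ∀ l, l < m → colOK M t (pv lo hi l) (lo l) (hi l) := by
  induction m with
  | zero => exact ⟨fun _ l hl => absurd hl (Nat.not_lt_zero l), fun _ => rfl⟩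
  | succ m ih =>
    have e : ∃ inst : Decidable (colOK M t (wrun (rs M) n lo hi m).prv (lo m) (hi m)),
        (wrun (rs M) n lo hi (m + 1)).vio t = ((wrun (rs M) n lo hi m).vio t ||
        !(@decide (colOK M t (wrun (rs M) n lo hi m).prv (lo m) (hi m)) inst)) := ⟨_, rfl⟩
    obtain ⟨inst, e⟩ := e
    rw [e, Bool.or_eq_false_iff, ih, Bool.not_eq_false', decide_eq_true_iff, run_prv]
    constructor
    · rintro ⟨h1, h2⟩ l hl
      rcases Nat.lt_succ_iff_lt_or_eq.1 hl with h | rfl
      · exact h1 l h
      · exact h2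
    · intro h
      exact ⟨fun l hl => h l (by omega), h m (Nat.lt_succ_self m)⟩

theorem tsw_eq (M : CM Q) (n m : ℕ) (lo hi : ℕ → Gm Q) (hm : 2 ≤ m) :
    tsw M (wrun (rs M) n lo hi m) = tst' M n m lo := by
  obtain ⟨k, rfl⟩ : ∃ k, m = k + 1 := ⟨m - 1, by omega⟩
  unfold tsw tst'
  rw [run_fst, run_nb]
  show (if M.ld (lo 0).1 = true then
      (match (if n < k + 1 then some (lo n) else none : Option (Gm Q)) with
        | none => true | some y => !(y.2 (lo 0).1))
      else !((lo 0).2 (lo 0).1)) = _
  by_cases h1 : M.ld (lo 0).1 = true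
  · rw [if_pos h1, if_pos h1]
    by_cases h2 : n < k + 1
    · rw [if_pos h2, if_pos h2]
    · rw [if_neg h2, if_neg h2]
  · rw [if_neg h1, if_neg h1]

/-- the columns -/
theorem col_iff (M : CM Q) (t : Bool) (m : ℕ) (lo hi : ℕ → Gm Q) (hm : 2 ≤ m) :
    (∀ l, l < m → colOK M t (pv lo hi l) (lo l) (hi l)) ↔
    M.nxt (lo 0).1 t = some (hi 0).1 ∧
    (∀ l, l < m → (lo l).1 = (lo 0).1 ∧ (hi l).1 = (hi 0).1) ∧
    (∀ l, l + 1 < m → ∀ p, ((lo (l + 1)).2 p = true → (lo l).2 p = true) ∧
      ((hi (l + 1)).2 p = true → (hi l).2 p = true)) ∧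
    ∀ p, (M.reg p = M.reg (lo 0).1 →
      (M.eff (lo 0).1 t = none → ∀ l, l < m → (hi l).2 p = (lo l).2 p) ∧
      (M.eff (lo 0).1 t = some true → (hi 0).2 p = true ∧
        ∀ l, l + 1 < m → (hi (l + 1)).2 p = (lo l).2 p) ∧
      (M.eff (lo 0).1 t = some false →
        ∀ l, l + 1 < m → (hi l).2 p = (lo (l + 1)).2 p)) ∧
    (M.reg p ≠ M.reg (lo 0).1 → ∀ l, l < m → (hi l).2 p = (lo l).2 p) := by
  constructor
  · intro h
    have h0 := h 0 (by omega)
    have hs : ∀ l, l < m → (lo l).1 = (lo 0).1 ∧ (hi l).1 = (hi 0).1 := by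
      intro l
      induction l with
      | zero => exact fun _ => ⟨rfl, rfl⟩
      | succ l ih =>
        intro hl
        have h1 := (h (l + 1) hl).1
        have h2 := ih (by omega)
        exact ⟨h1.1.trans h2.1, h1.2.1.trans h2.2⟩
    refine ⟨h0.1, hs, ?_, ?_⟩
    · intro l hl p
      have h1 := (h (l + 1) hl).1
      exact ⟨h1.2.2.1 p, h1.2.2.2 p⟩
    · intro p
      have hr : ∀ l, l < m → regOK M t (pv lo hi l) (lo l) (hi l) p := fun l hl => (h l hl).2 p
      unfold regOK at hr
      refine ⟨fun hp => ⟨?_, ?_, ?_⟩, ?_⟩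
      · intro he l hl
        have h1 := hr l hl
        rw [(hs l hl).1, if_pos hp, he] at h1
        exact h1
      · intro he
        refine ⟨?_, ?_⟩
        · have h1 := hr 0 (by omega)
          rw [if_pos hp, he] at h1
          exact h1
        · intro l hl
          have h1 := hr (l + 1) hl
          rw [(hs (l + 1) hl).1, if_pos hp, he] at h1
          exact h1
      · intro he l hl
        have h1 := hr (l + 1) hl
        rw [(hs (l + 1) hl).1, if_pos hp, he] at h1
        exact h1
      · intro hp l hl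
        have h1 := hr l hl
        rw [(hs l hl).1, if_neg hp] at h1
        exact h1
  · rintro ⟨h0, hs, hmon, hr⟩ l hl
    refine ⟨?_, ?_⟩
    · cases l with
      | zero => exact h0
      | succ l =>
        have h1 := hs l (by omega)
        have h2 := hs (l + 1) hl
        exact ⟨h2.1.trans h1.1.symm, h2.2.trans h1.2.symm, fun p => (hmon l hl p).1,
          fun p => (hmon l hl p).2⟩
    · intro p
      unfold regOK
      rw [(hs l hl).1]
      by_cases hp : M.reg p = M.reg (lo 0).1
      · rw [if_pos hp]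
        obtain ⟨r1, r2, r3⟩ := (hr p).1 hp
        cases he : M.eff (lo 0).1 t with
        | none => exact r1 he l hl
        | some b =>
          cases b with
          | false =>
            cases l with
            | zero => exact trivial
            | succ l => exact r3 he l hl
          | true =>
            cases l with
            | zero => exact (r2 he).1
            | succ l => exact (r2 he).2 l hl
      · rw [if_neg hp]
        exact (hr p).2 hp l hl

/-- **S_M0.** -/
theorem m0 : S_M0 := by
  intro Q M n m lo hi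
  have hcnt := run_cnt M n lo hi m
  have hb : ∃ inst : Decidable ((wrun (rs M) n lo hi m).fst.map Prod.fst =
        some (M.start, fun _ => false)), (rs M).bad (wrun (rs M) n lo hi m) =
      (decide (2 ≤ (wrun (rs M) n lo hi m).cnt.val) &&
    ((wrun (rs M) n lo hi m).vio (tsw M (wrun (rs M) n lo hi m)) ||
      (decide ((wrun (rs M) n lo hi m).cnt.val = 2) &&
      !(@decide ((wrun (rs M) n lo hi m).fst.map Prod.fst = some (M.start, fun _ => false))
        inst)))) := ⟨_, rfl⟩
  obtain ⟨inst, hb⟩ := hb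
  constructor
  · intro hm
    unfold rowOK
    rw [hb, hcnt]
    have h1 : ¬ 2 ≤ min m 3 := by omega
    rw [decide_eq_false h1, Bool.false_and]
  · intro hm
    unfold rowOK RowP
    rw [hb, hcnt, tsw_eq M n m lo hi hm]
    have h1 : 2 ≤ min m 3 := by omega
    rw [decide_eq_true h1, Bool.true_and, Bool.or_eq_false_iff, run_vio, col_iff M _ m lo hi hm,
      and_comm]
    refine and_congr ?_ Iff.rfl
    rw [Bool.and_eq_false_iff, decide_eq_false_iff_not, Bool.not_eq_false', decide_eq_true_iff,
      run_fst]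
    obtain ⟨k, rfl⟩ : ∃ k, m = k + 1 := ⟨m - 1, by omega⟩
    show ¬ min (k + 1) 3 = 2 ∨ some (lo 0) = some (M.start, fun _ => false) ↔ _
    rw [Option.some_inj, ← imp_iff_not_or]
    have h2 : min (k + 1) 3 = 2 ↔ k + 1 = 2 := by omega
    rw [h2]

end Pool.Agent.H672.DL
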