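import Pool.Agent.H724.DL.Mch

set_option autoImplicit false

namespace Pool.Agent.H872.DLM1

open Pool.Agent.H724.DL Pool.Agent.Lib.helper21.Mach Function

theorem m1 (h : S_M0) : S_M1 := by
  intro Q M n hT
  obtain ⟨c, hc⟩ := hT
  have key : ∀ m, 2 ≤ m → RowP M n m (c m) (c (m + 1)) :=
    fun m hm => ((h Q M n m (c m) (c (m + 1))).2 hm).1 (hc m)
  have cl : ∀ j, ∃ q s, M.it n j = some (q, s) ∧ (∀ r, s r ≤ j) ∧
      ∀ l, l < j + 2 → c (j + 2) l = (q, fun p => decide (l < s (M.reg p))) := by
    intro j
    induction j with
    | zero =>
      refine ⟨M.start, fun _ => 0, rfl, fun _ => le_rfl, ?_⟩
      obtain ⟨h1, -, h3, h4, -⟩ := key 2 le_rfl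
      have e0 := h1 rfl
      intro l hl
      have hl' : l = 0 ∨ l = 1 := by omega
      rcases hl' with rfl | rfl
      · rw [e0]; simp
      · have a1 := (h3 1 (by omega)).1
        rw [e0] at a1
        refine Prod.ext a1 ?_
        funext p
        have a2 := (h4 0 (by omega) p).1
        rw [e0] at a2
        simp only [Nat.not_lt_zero, decide_false]
        cases hb : (c (0 + 2) 1).2 p with
        | false => rfl
        | true => exact (Bool.false_ne_true (a2 hb)).elim
    | succ j ih =>
      obtain ⟨q, s, hit, hs, hrow⟩ := ih
      obtain ⟨-, g2, g3, g4, g5⟩ := key (j + 2) (by omega)
      obtain ⟨-, -, k3, k4, -⟩ := key (j + 1 + 2) (by omega)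
      have e0 : c (j + 2) 0 = (q, fun p => decide (0 < s (M.reg p))) := hrow 0 (by omega)
      have eq0 : (c (j + 2) 0).1 = q := by rw [e0]
      have ht : tst' M n (j + 2) (c (j + 2)) = M.tst n (q, s) := by
        unfold tst' CM.tst CM.thr
        simp only [eq0]
        by_cases hld : M.ld q = true
        · simp only [hld, if_true]
          split_ifs with hn
          · rw [hrow n hn]
            simp only
            by_cases hh : n < s (M.reg q)
            · simp [hh, Nat.not_le.2 hh]
            · simp [hh, Nat.not_lt.1 hh]
          · have := hs (M.reg q)
            symm
            exact decide_eq_true (by omega)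
        · simp only [hld, if_false, e0]
          by_cases hh : 0 < s (M.reg q)
          · simp [hh, Nat.not_le.2 hh]
          · simp [hh, Nat.not_lt.1 hh]
      rw [ht, eq0] at g2 g5
      have g3' := fun l hl => (g3 l hl).2
      set q' := (c (j + 2 + 1) 0).1 with hq'
      set t := M.tst n (q, s) with htt
      refine ⟨q', app (M.eff q t) (M.reg q) s, ?_, ?_, ?_⟩
      · rw [CM.it_succ, hit, Option.bind_some, CM.step]
        simp only [← htt, g2, Option.map_some]
      · intro r
        have hr := hs r
        have hr2 := hs (M.reg q)
        rcases hE : M.eff q t with _ | _ | _
        · simp only [app]; omega
        · simp only [app, update_apply]; split_ifs <;> omega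
        · simp only [app, update_apply]; split_ifs <;> omega
      · -- bits
        have hs' : ∀ r, app (M.eff q t) (M.reg q) s r ≤ j + 1 := by
          intro r
          have hr := hs r
          have hr2 := hs (M.reg q)
          rcases hE : M.eff q t with _ | _ | _
          · simp only [app]; omega
          · simp only [app, update_apply]; split_ifs <;> omega
          · simp only [app, update_apply]; split_ifs <;> omega
        have bits : ∀ l, l < j + 2 → ∀ p, (c (j + 2 + 1) l).2 p =
            decide (l < app (M.eff q t) (M.reg q) s (M.reg p)) := by
          intro l hl p
          obtain ⟨u1, u2⟩ := g5 p
          have hb : ∀ i, i < j + 2 → (c (j + 2) i).2 p = decide (i < s (M.reg p)) := by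
            intro i hi; rw [hrow i hi]
          by_cases hp : M.reg p = M.reg q
          · obtain ⟨v1, v2, v3⟩ := u1 hp
            rcases hE : M.eff q t with _ | _ | _
            · rw [v1 hE l hl, hb l hl]; rfl
            · -- decrement
              have v3 := v3 hE
              have htf : t = false := by
                cases htc : t with
                | false => rfl
                | true => rw [htc] at hE; exact (M.nodec q hE).elim
              have hpos : 0 < s (M.reg q) := by
                have : ¬ s (M.reg q) ≤ M.thr n q := by
                  have := htf
                  rw [htt] at this
                  unfold CM.tst at this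
                  simpa using this
                omega
              simp only [app, hp, update_self]
              by_cases hl2 : l + 1 < j + 2
              · rw [v3 l hl2, hb (l + 1) hl2, hp]
                congr 1
                apply propext; omega
              · have hlj : l = j + 1 := by omega
                subst hlj
                have w1 := (g4 j (by omega) p).2
                have w2 : (c (j + 2 + 1) j).2 p = false := by
                  rw [v3 j (by omega), hb (j + 1) (by omega)]
                  have := hs (M.reg p)
                  exact decide_eq_false (by omega)
                have w3 : (c (j + 2 + 1) (j + 1)).2 p = false := by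
                  cases hbb : (c (j + 2 + 1) (j + 1)).2 p with
                  | false => rfl
                  | true => rw [w1 hbb] at w2; cases w2
                rw [w3]
                have := hs (M.reg q)
                symm
                exact decide_eq_false (by omega)
            · obtain ⟨v2a, v2b⟩ := v2 hE
              simp only [app, hp, update_self]
              cases l with
              | zero => rw [v2a]; simp
              | succ l =>
                rw [v2b l hl, hb l (by omega), hp]
                congr 1
                apply propext; omega
          · rw [u2 hp l hl, hb l hl]
            rcases hE : M.eff q t with _ | _ | _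
            · rfl
            · simp only [app, update_of_ne hp]
            · simp only [app, update_of_ne hp]
        intro l hl
        by_cases hl2 : l < j + 2
        · refine Prod.ext (g3' l hl2) ?_
          funext p
          exact bits l hl2 p
        · have hlj : l = j + 2 := by omega
          subst hlj
          refine Prod.ext ((k3 (j + 2) (by omega)).1) ?_
          funext p
          have w1 := (k4 (j + 1) (by omega) p).1
          have w2 : (c (j + 2 + 1) (j + 1)).2 p = false := by
            rw [bits (j + 1) (by omega) p]
            have := hs' (M.reg p)
            exact decide_eq_false (by omega)
          have w3 : (c (j + 1 + 2) (j + 2)).2 p = false := by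
            cases hbb : (c (j + 1 + 2) (j + 2)).2 p with
            | false => rfl
            | true =>
              have := w1 hbb
              rw [show j + 1 + 2 = j + 2 + 1 from by omega] at this
              rw [this] at w2; cases w2
          rw [w3]
          have := hs' (M.reg p)
          symm
          exact decide_eq_false (by omega)
  intro j hj
  obtain ⟨q, s, h1, _⟩ := cl j
  rw [h1] at hj
  cases hj

end Pool.Agent.H872.DLM1
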