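import Pool.Agent.H724.DL.Mch

/-!
# DL-M2: the array of a non-halting run (subtask for helper724, MP_e695f0_lc)
-/

set_option autoImplicit false

namespace Pool.Agent.H195.DLM2

open Pool.Agent.H724.DL Pool.Agent.Lib.helper21.Mach

variable {Q : Type}

lemma app_le (e : Option Bool) (r : ℕ) (s : ℕ → ℕ) (k : ℕ) (h : ∀ r, s r ≤ k) :
    ∀ r', app e r s r' ≤ k + 1 := by
  intro r'
  have h1 := h r'
  have h2 := h r
  rcases e with _ | _ | _
  · simp only [app]; omega
  · simp only [app, Function.update_apply]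
    split_ifs <;> omega
  · simp only [app, Function.update_apply]
    split_ifs <;> omega

lemma tst_eq (M : CM Q) (n j : ℕ) (q : Q) (s : ℕ → ℕ) (hs : ∀ r, s r ≤ j)
    (lo : ℕ → Gm Q) (hlo : ∀ l, lo l = (q, fun p => decide (l < s (M.reg p)))) :
    tst' M n (j + 2) lo = M.tst n (q, s) := by
  have h1 := hs (M.reg q)
  unfold tst' CM.tst CM.thr
  simp only [hlo]
  by_cases hld : M.ld q = true
  · rw [if_pos hld]
    by_cases hn : n < j + 2
    · rw [if_pos hn, if_pos hld]
      rw [← decide_not]
      exact decide_eq_decide.2 (by omega)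
    · rw [if_neg hn, if_pos hld]
      symm
      apply decide_eq_true
      omega
  · rw [if_neg hld, if_neg hld]
    rw [← decide_not]
    exact decide_eq_decide.2 (by omega)

lemma rowP (M : CM Q) (n j : ℕ) (q q' : Q) (s s' : ℕ → ℕ) (hs : ∀ r, s r ≤ j)
    (h0 : j = 0 → q = M.start)
    (hq : M.nxt q (M.tst n (q, s)) = some q')
    (hs' : s' = app (M.eff q (M.tst n (q, s))) (M.reg q) s) (lo hi : ℕ → Gm Q)
    (hlo : ∀ l, lo l = (q, fun p => decide (l < s (M.reg p))))
    (hhi : ∀ l, hi l = (q', fun p => decide (l < s' (M.reg p)))) :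
    RowP M n (j + 2) lo hi := by
  have ht := tst_eq M n j q s hs lo hlo
  unfold RowP
  rw [ht]
  simp only [hlo, hhi]
  refine ⟨?_, hq, ?_, ?_, ?_⟩
  · intro hj
    have hj0 : j = 0 := by omega
    rw [h0 hj0]
    congr 1
    funext p
    have := hs (M.reg p)
    simp only [decide_eq_false_iff_not]
    omega
  · intro l _
    exact ⟨trivial, trivial⟩
  · intro l _ p
    simp only [decide_eq_true_eq]
    omega
  · intro p
    refine ⟨fun hp => ?_, fun hp l _ => ?_⟩
    · subst hs'
      rw [hp]
      refine ⟨fun he l _ => ?_, fun he => ⟨?_, fun l _ => ?_⟩, fun he l _ => ?_⟩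
      · rw [he]; rfl
      · rw [he]
        simp [app]
      · rw [he]
        simp [app]
      · rw [he]
        simp only [app, Function.update_self]
        exact decide_eq_decide.2 (by omega)
    · subst hs'
      have : app (M.eff q (M.tst n (q, s))) (M.reg q) s (M.reg p) = s (M.reg p) := by
        rcases h : M.eff q (M.tst n (q, s)) with _ | _ | _
        · rfl
        · simp only [app]; rw [Function.update_of_ne hp]
        · simp only [app]; rw [Function.update_of_ne hp]
      rw [this]

theorem m2 (h : S_M0) : S_M2 := by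
  intro Q M n hM
  have hex : ∀ j, ∃ c, M.it n j = some c := fun j => Option.ne_none_iff_exists'.1 (hM j)
  choose cfg hcfg using hex
  have h0 : cfg 0 = (M.start, fun _ => 0) := by
    have h1 := hcfg 0
    have h2 : M.it n 0 = some (M.start, fun _ => 0) := rfl
    rw [h2] at h1
    exact (Option.some.inj h1).symm
  have hstep : ∀ j, M.nxt (cfg j).1 (M.tst n (cfg j)) = some (cfg (j + 1)).1 ∧
      (cfg (j + 1)).2 = app (M.eff (cfg j).1 (M.tst n (cfg j))) (M.reg (cfg j).1) (cfg j).2 := by
    intro j
    have h1 := CM.it_succ M n j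
    rw [hcfg j, hcfg (j + 1), Option.bind_some] at h1
    unfold CM.step at h1
    have h2 := Option.map_eq_some_iff.1 h1.symm
    obtain ⟨q, hq1, hq2⟩ := h2
    rw [← hq2]
    exact ⟨hq1, rfl⟩
  have hle : ∀ j r, (cfg j).2 r ≤ j := by
    intro j
    induction j with
    | zero => intro r; rw [h0]
    | succ j ih =>
      rw [(hstep j).2]
      exact app_le _ _ _ _ ih
  refine ⟨fun m l => ((cfg (m - 2)).1, fun p => decide (l < (cfg (m - 2)).2 (M.reg p))), ?_⟩
  intro m
  by_cases hm : m < 2
  · exact (h Q M n m _ _).1 hm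
  · obtain ⟨j, rfl⟩ : ∃ j, m = j + 2 := ⟨m - 2, by omega⟩
    refine ((h Q M n (j + 2) _ _).2 (by omega)).2 ?_
    exact rowP M n j (cfg j).1 (cfg (j + 1)).1 (cfg j).2 (cfg (j + 1)).2 (hle j)
      (fun hj => by rw [hj, h0]) (hstep j).1 (hstep j).2 _ _ (fun l => rfl) (fun l => rfl)

end Pool.Agent.H195.DLM2
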