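import Pool.Agent.H724.DL.Stm

/-! DL-NF: the canonical word gives an immortal pair. -/

set_option autoImplicit false

namespace Pool.Agent.H921.DLNF

open Pool.Agent.H724.DL

variable {Γ W : Type}

theorem lok_can (c : ℕ → ℕ → Γ) (a : ℕ) : lok (can c a) := by
  unfold lok
  by_cases h : (a : ZMod 5) = 0
  · exact Or.inl h
  · right
    have h1 : a % 5 ≠ 0 := by
      intro h2
      apply h
      rw [← ZMod.natCast_mod, h2, Nat.cast_zero]
    have h2 : a % 5 ^ (0 + 1) = (a % 5) * 5 ^ 0 := by simp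
    have h3 : lv a = 0 := lv_of_low (Nat.pos_of_ne_zero h1) (Nat.mod_lt _ (by norm_num)) h2
    have h4 : dg a = a % 5 := dg_of_low (Nat.pos_of_ne_zero h1) (Nat.mod_lt _ (by norm_num)) h2
    show ((lv a : ZMod 3), (dg a : ZMod 5)) = (0, (a : ZMod 5))
    rw [h3, h4, Nat.cast_zero, ZMod.natCast_mod]

/-- the diagonal -/
theorem drun_diag (R : RS Γ W) (n : ℕ) (X : ℕ → Pay Γ) (i t : ℕ) :
    drun R n X X i i t = some (.idle, 0) := by
  induction t with
  | zero => rfl
  | succ t ih =>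
    show dn R n (drun R n X X i i t) (X (i + t)) (X (i + t)) = _
    rw [ih]
    simp [dn, dstep, istep, act]

theorem exists_val {i j : ℕ} (h : i ≠ j) :
    ∃ m, i % 5 ^ m = j % 5 ^ m ∧ i % 5 ^ (m + 1) ≠ j % 5 ^ (m + 1) := by
  classical
  have hex : ∃ m, i % 5 ^ m ≠ j % 5 ^ m := by
    refine ⟨i + j, ?_⟩
    have h1 : i + j < 5 ^ (i + j) := Nat.lt_pow_self (by norm_num)
    rw [Nat.mod_eq_of_lt (by omega), Nat.mod_eq_of_lt (by omega)]
    exact h
  have h0 : Nat.find hex ≠ 0 := by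
    intro h0
    have h1 := Nat.find_spec hex
    rw [h0] at h1
    apply h1
    rw [pow_zero, Nat.mod_one, Nat.mod_one]
  obtain ⟨m, hm⟩ := Nat.exists_eq_succ_of_ne_zero h0
  refine ⟨m, ?_, ?_⟩
  · by_contra h1
    have := Nat.find_min' hex h1
    omega
  · have h1 := Nat.find_spec hex
    rwa [hm] at h1

theorem step_lt {a M : ℕ} (h : a % M + 1 < M) : (a + 1) / M = a / M ∧ (a + 1) % M = a % M + 1 := by
  have hM : 0 < M := by omega
  have e : a + 1 = M * (a / M) + (a % M + 1) := by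
    have := Nat.div_add_mod a M
    omega
  constructor
  · conv_lhs => rw [e]
    rw [Nat.mul_add_div hM, Nat.div_eq_of_lt h, add_zero]
  · conv_lhs => rw [e]
    rw [Nat.mul_add_mod, Nat.mod_eq_of_lt h]

theorem step_eq {a M : ℕ} (hM : 0 < M) (h : a % M + 1 = M) :
    (a + 1) / M = a / M + 1 ∧ (a + 1) % M = 0 ∧ a + 1 = M * (a / M + 1) := by
  have e : a + 1 = M * (a / M + 1) := by
    have := Nat.div_add_mod a M
    rw [mul_add, mul_one]
    omega
  refine ⟨?_, ?_, e⟩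
  · conv_lhs => rw [e]
    rw [Nat.mul_div_cancel_left _ hM]
  · conv_lhs => rw [e]
    rw [Nat.mul_mod_right]

theorem invariant (h1 : S_INV1) (h2 : S_INV2) (R : RS Γ W) (n : ℕ) (c : ℕ → ℕ → Γ)
    (hc : ∀ m, rowOK R n m (c m) (c (m + 1))) {i j m : ℕ} (hij : i % 5 ^ m = j % 5 ^ m)
    (hne : i % 5 ^ (m + 1) ≠ j % 5 ^ (m + 1)) (t : ℕ) :
    ∃ d i', drun R n (fun i => can c (i + 1)) (fun i => can c (i + 1)) i j t = some (d, i') ∧
      Inv R n c m ((i + t) / 5 ^ m) ((j + t) / 5 ^ m) ((i + t) % 5 ^ m) i' d := by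
  induction t with
  | zero => exact ⟨.idle, 0, rfl, trivial⟩
  | succ t ih =>
    obtain ⟨d, i', hd, hI⟩ := ih
    have hM : 0 < 5 ^ m := pow5_pos m
    have hmod : (i + t) % 5 ^ m = (j + t) % 5 ^ m := by
      rw [Nat.add_mod, hij, ← Nat.add_mod]
    have hdiv : ((i + t) / 5 ^ m) % 5 ≠ ((j + t) / 5 ^ m) % 5 := by
      intro h
      apply hne
      have e1 : (i + t) % 5 ^ (m + 1) = (j + t) % 5 ^ (m + 1) := by
        rw [Nat.mod_pow_succ, Nat.mod_pow_succ, hmod, h]
      exact Nat.ModEq.add_right_cancel' t e1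
    have hrun : drun R n (fun i => can c (i + 1)) (fun i => can c (i + 1)) i j (t + 1) =
        dn R n (some (d, i')) (can c (i + t + 1)) (can c (j + t + 1)) := by
      rw [← hd]
      rfl
    rw [hrun, ← add_assoc, ← add_assoc]
    by_cases hlt : (i + t) % 5 ^ m + 1 < 5 ^ m
    · obtain ⟨a1, a2⟩ := step_lt hlt
      obtain ⟨b1, b2⟩ := step_lt (a := j + t) (hmod ▸ hlt)
      obtain ⟨d', i'', e1, e2⟩ := h1 Γ W R n c m _ _ _ i' d hI hlt
      refine ⟨d', i'', ?_, ?_⟩
      · rw [← e1]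
        have f1 : i + t + 1 = 5 ^ m * ((i + t) / 5 ^ m) + ((i + t) % 5 ^ m + 1) := by
          rw [← add_assoc, Nat.div_add_mod]
        have f2 : j + t + 1 = 5 ^ m * ((j + t) / 5 ^ m) + ((i + t) % 5 ^ m + 1) := by
          rw [hmod, ← add_assoc, Nat.div_add_mod]
        rw [← f1, ← f2]
      · rw [a1, a2, b1]
        exact e2
    · have heq : (i + t) % 5 ^ m + 1 = 5 ^ m := by
        have := Nat.mod_lt (i + t) hM
        omega
      obtain ⟨a1, a2, a3⟩ := step_eq hM heq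
      obtain ⟨b1, b2, b3⟩ := step_eq (a := j + t) hM (hmod ▸ heq)
      have hom : (i + t) % 5 ^ m = 5 ^ m - 1 := by omega
      rw [hom] at hI
      obtain ⟨d', i'', e1, e2⟩ := h2 Γ W R n c m _ _ i' d hc hdiv hI
      refine ⟨d', i'', ?_, ?_⟩
      · rw [← e1, ← a3, ← b3]
      · rw [a1, a2, b1]
        exact e2

theorem nf (h1 : Pool.Agent.H724.DL.S_INV1) (h2 : Pool.Agent.H724.DL.S_INV2) :
    Pool.Agent.H724.DL.S_NF := by
  intro Γ W R n hT
  obtain ⟨c, hc⟩ := hT
  refine ⟨fun i => can c (i + 1), fun i => can c (i + 1), ?_, ?_, ?_, ?_, ?_⟩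
  · intro i
    show ((i + 1 + 1 : ℕ) : ZMod 5) = ((i + 1 : ℕ) : ZMod 5) + 1
    push_cast; ring
  · intro i
    show ((i + 1 + 1 : ℕ) : ZMod 5) = ((i + 1 : ℕ) : ZMod 5) + 1
    push_cast; ring
  · exact fun i => lok_can c _
  · exact fun i => lok_can c _
  · intro i j t
    by_cases hij : i = j
    · subst hij
      rw [drun_diag]
      exact Option.some_ne_none _
    · obtain ⟨m, e1, e2⟩ := exists_val hij
      obtain ⟨d, i', hd, _⟩ := invariant h1 h2 R n c hc e1 e2 t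
      rw [hd]
      exact Option.some_ne_none _

end Pool.Agent.H921.DLNF
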