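import Pool.Agent.H724.DL.Stm

/-! Project DL (helper724), task DL-ROW: rows are compatible. -/

set_option autoImplicit false

namespace Pool.Agent.H796.DLRow

open Pool.Agent.H724.DL

theorem pset2_X (lam : ZMod 3) (p : ℕ → ZMod 3 × ZMod 5) (h0 : p 0 = (lam + 1, 1))
    (h1 : p 1 = (lam + 1, 2)) : pset lam p (1 + 1) = {2} := by
  ext c
  have e : c ∈ pset lam p (1 + 1) ↔ (c - 1 = 0 ∨ 1 = c - 1) ∧ (c = 0 ∨ 2 = c) := by
    show c ∈ upd lam (pset lam p 1) (p 1) ↔ _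
    rw [mem_upd, h1]
    show (c - 1 ∈ upd lam (pset lam p 0) (p 0)) ∧ _ ↔ _
    rw [mem_upd, h0]
    show (c - 1 - 1 ∈ (Finset.univ : Finset (ZMod 5)) ∧ _) ∧ _ ↔ _
    simp
  rw [e, Finset.mem_singleton]
  clear e h0 h1
  revert c
  decide

theorem pset2_Y (lam : ZMod 3) (p : ℕ → ZMod 3 × ZMod 5) (h0 : p 0 = (lam + 1, 2))
    (h1 : p 1 = (lam + 1, 3)) : pset lam p (1 + 1) = {3} := by
  ext c
  have e : c ∈ pset lam p (1 + 1) ↔ (c - 1 = 0 ∨ 2 = c - 1) ∧ (c = 0 ∨ 3 = c) := by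
    show c ∈ upd lam (pset lam p 1) (p 1) ↔ _
    rw [mem_upd, h1]
    show (c - 1 ∈ upd lam (pset lam p 0) (p 0)) ∧ _ ↔ _
    rw [mem_upd, h0]
    show (c - 1 - 1 ∈ (Finset.univ : Finset (ZMod 5)) ∧ _) ∧ _ ↔ _
    simp
  rw [e, Finset.mem_singleton]
  clear e h0 h1
  revert c
  decide

variable {Γ W : Type}

/-- Letters at small offsets from a multiple of `5 ^ m`. -/
theorem letter {X : ℕ → Pay Γ} {m al N i : ℕ} (h : Hi X m al N) (hi : N ≤ i)
    (hm : (i + al) % 5 ^ m = 0) {t : ℕ} (ht : t < 5 ^ m) {l r : ℕ} (h0 : 0 < r)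
    (h5 : r < 5) (hr : t % 5 ^ (l + 1) = r * 5 ^ l) :
    (X (i + t)).u = ((l : ZMod 3), (r : ZMod 5)) := by
  have hl := low_lt h0 hr ht
  refine h l hl.le r h0 h5 (i + t) (by omega) ?_
  rw [show i + t + al = (i + al) + t by ring, add_mod_low hl hm, hr]

/-- Subtracting a multiple of the lower modulus. -/
theorem mod_sub_aux {a b M c r s : ℕ} (hb : b ≤ a) (ha : a % M = r) (hs : s < M) (hc : s + b = r + c * M) :
    (a - b) % M = s := by
  have h1 : (a - b + b) % M = r := by rw [Nat.sub_add_cancel hb, ha]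
  have h2 : (a - b + b) % M = (s + b) % M := by
    rw [h1, hc, Nat.add_mul_mod_self_right]
    rw [← ha, Nat.mod_mod]
  have h3 : (a - b) ≡ s [MOD M] := Nat.ModEq.add_right_cancel' b h2
  have h4 : (a - b) % M = s % M := h3
  rw [h4, Nat.mod_eq_of_lt hs]

theorem row (h : S_LOCK) (hp : S_PD) (hc : S_COL) : S_ROW := by
  intro Γ W R n X Y m al be N hI hX hY
  have T : 5 ^ (m + 1) = 5 * 5 ^ m := by rw [pow_succ]; ring
  have T2 : 5 ^ (m + 2) = 25 * 5 ^ m := by rw [pow_succ, pow_succ]; ring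
  have tpos : 0 < 5 ^ m := pow5_pos m
  -- hypotheses of COL
  have col : ∀ g : Bool, ∀ i j : ℕ, N + 50 * 5 ^ m ≤ i → N + 50 * 5 ^ m ≤ j →
      (i + al) % 5 ^ m = 0 → (j + be) % 5 ^ m = 0 → (X i).u.2 = 2 → (Y j).u.2 = 3 →
      (wwin R n g X Y i j (5 ^ m - 1)).1 =
      wrun R n (fun l => if g then (X (i + 5 ^ l)).k else (Y (j + 5 ^ l)).k)
        (fun l => if g then (Y (j + 5 ^ l)).k else (X (i + 5 ^ l)).k) m := by
    intro g i j hi hj hmi hmj hx hy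
    refine hc Γ W R n g X Y m i j ?_ ?_ hx hy
    · intro t _ ht l r h0 h5 hr
      exact ⟨letter (hX.mono (Nat.le_succ m)) (by omega) hmi ht h0 h5 hr,
        letter (hY.mono (Nat.le_succ m)) (by omega) hmj ht h0 h5 hr⟩
    · intro l hl t ht htl
      have hle : 5 ^ l ≤ 5 ^ m := Nat.pow_le_pow_right (by norm_num) hl.le
      have hpd := hp Γ W R n X Y l al be N hI (hX.mono (by omega)) (hY.mono (by omega))
      refine ⟨hpd.1 (i + t) (by omega) ?_, hpd.2 (j + t) (by omega) ?_⟩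
      · rw [show i + t + al = (i + al) + t by ring, add_mod_low hl hmi, htl]
      · rw [show j + t + be = (j + be) + t by ring, add_mod_low hl hmj, htl]
  have dvd1 : 5 ^ m ∣ 5 ^ (m + 1) := Nat.pow_dvd_pow 5 (by omega)
  have dvd2 : 5 ^ (m + 1) ∣ 5 ^ (m + 2) := Nat.pow_dvd_pow 5 (by omega)
  have cast1 : ((m + 1 : ℕ) : ZMod 3) = (m : ZMod 3) + 1 := by push_cast; rfl
  refine ⟨N + 50 * 5 ^ m, fun i j hi hj => ⟨fun h1 h2 => ?_, fun h1 h2 => ?_⟩⟩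
  · -- first claim
    have hi1 : (i + al) % 5 ^ (m + 1) = 0 := by
      rw [← Nat.mod_mod_of_dvd (i + al) dvd2, h1, Nat.mul_mod_left]
    have hi0 : (i + al) % 5 ^ m = 0 := by
      rw [← Nat.mod_mod_of_dvd (i + al) dvd1, hi1, Nat.zero_mod]
    have hj0 : (j + be) % 5 ^ m = 0 := by
      rw [← Nat.mod_mod_of_dvd (j + be) dvd1, h2, Nat.mul_mod_left]
    have xu : (X i).u = (((m + 1 : ℕ) : ZMod 3), ((2 : ℕ) : ZMod 5)) :=
      hX (m + 1) le_rfl 2 (by norm_num) (by norm_num) i (by omega) h1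
    have yu : (Y j).u = ((m : ZMod 3), ((3 : ℕ) : ZMod 5)) :=
      hY m (Nat.le_succ m) 3 (by norm_num) (by norm_num) j (by omega) h2
    have xu' : (X (i - 5 ^ (m + 1))).u = (((m + 1 : ℕ) : ZMod 3), ((1 : ℕ) : ZMod 5)) := by
      refine hX (m + 1) le_rfl 1 (by norm_num) (by norm_num) _ (by omega) ?_
      rw [show i - 5 ^ (m + 1) + al = (i + al) - 5 ^ (m + 1) by omega]
      exact mod_sub_aux (c := 0) (by omega) h1 (by rw [T, T2]; omega) (by ring)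
    have hl := h Γ W R n X Y m al be N (i - (2 * 5 ^ m + 5 ^ (m + 1))) (j - (2 * 5 ^ m + 5 ^ (m + 1)))
      (fun t => hI.nf _ _ t) (hX.mono (Nat.le_succ m)) (hY.mono (Nat.le_succ m)) (by omega) (by omega)
      (by
        rw [show i - (2 * 5 ^ m + 5 ^ (m + 1)) + al = (i + al) - (2 * 5 ^ m + 5 ^ (m + 1)) by omega]
        exact mod_sub_aux (c := 2) (by omega) hi1 (by rw [T]; omega) (by rw [T]; ring))
      (by
        rw [show j - (2 * 5 ^ m + 5 ^ (m + 1)) + be = (j + be) - (2 * 5 ^ m + 5 ^ (m + 1)) by omega]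
        exact mod_sub_aux (c := 1) (by omega) h2 (by rw [T]; omega) (by rw [T]; ring))
      (fun k => (X (i - (2 * 5 ^ m + 5 ^ (m + 1)) + k * 5 ^ (m + 1) + 2 * 5 ^ m)).u)
      (fun k => (Y (j - (2 * 5 ^ m + 5 ^ (m + 1)) + k * 5 ^ (m + 1) + 4 * 5 ^ m)).u)
      (fun _ => rfl) (fun _ => rfl) 1
    obtain ⟨_, _, _, _, _, hw, _⟩ := hl
    have hset : pset (m : ZMod 3)
        (fun k => (X (i - (2 * 5 ^ m + 5 ^ (m + 1)) + k * 5 ^ (m + 1) + 2 * 5 ^ m)).u) (1 + 1) = {2} := by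
      apply pset2_X
      · show (X (i - (2 * 5 ^ m + 5 ^ (m + 1)) + 0 * 5 ^ (m + 1) + 2 * 5 ^ m)).u = _
        rw [show i - (2 * 5 ^ m + 5 ^ (m + 1)) + 0 * 5 ^ (m + 1) + 2 * 5 ^ m = i - 5 ^ (m + 1) by omega,
          xu', cast1]
        simp
      · show (X (i - (2 * 5 ^ m + 5 ^ (m + 1)) + 1 * 5 ^ (m + 1) + 2 * 5 ^ m)).u = _
        rw [show i - (2 * 5 ^ m + 5 ^ (m + 1)) + 1 * 5 ^ (m + 1) + 2 * 5 ^ m = i by omega,
          xu, cast1]
        simp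
    have hb := hw hset
    rw [show i - (2 * 5 ^ m + 5 ^ (m + 1)) + 1 * 5 ^ (m + 1) + 2 * 5 ^ m = i by omega,
      show j - (2 * 5 ^ m + 5 ^ (m + 1)) + 1 * 5 ^ (m + 1) + 2 * 5 ^ m = j by omega,
      col false i j hi hj hi0 hj0 (by rw [xu]; rfl) (by rw [yu]; rfl)] at hb
    simpa [rowOK] using hb
  · -- second claim
    have hj1 : (j + be) % 5 ^ (m + 1) = 0 := by
      rw [← Nat.mod_mod_of_dvd (j + be) dvd2, h1, Nat.mul_mod_left]
    have hj0 : (j + be) % 5 ^ m = 0 := by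
      rw [← Nat.mod_mod_of_dvd (j + be) dvd1, hj1, Nat.zero_mod]
    have hi0 : (i + al) % 5 ^ m = 0 := by
      rw [← Nat.mod_mod_of_dvd (i + al) dvd1, h2, Nat.mul_mod_left]
    have yu : (Y j).u = (((m + 1 : ℕ) : ZMod 3), ((3 : ℕ) : ZMod 5)) :=
      hY (m + 1) le_rfl 3 (by norm_num) (by norm_num) j (by omega) h1
    have xu : (X i).u = ((m : ZMod 3), ((2 : ℕ) : ZMod 5)) :=
      hX m (Nat.le_succ m) 2 (by norm_num) (by norm_num) i (by omega) h2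
    have yu' : (Y (j - 5 ^ (m + 1))).u = (((m + 1 : ℕ) : ZMod 3), ((2 : ℕ) : ZMod 5)) := by
      refine hY (m + 1) le_rfl 2 (by norm_num) (by norm_num) _ (by omega) ?_
      rw [show j - 5 ^ (m + 1) + be = (j + be) - 5 ^ (m + 1) by omega]
      exact mod_sub_aux (c := 0) (by omega) h1 (by rw [T, T2]; omega) (by ring)
    have hl := h Γ W R n X Y m al be N (i - (4 * 5 ^ m + 5 ^ (m + 1))) (j - (4 * 5 ^ m + 5 ^ (m + 1)))
      (fun t => hI.nf _ _ t) (hX.mono (Nat.le_succ m)) (hY.mono (Nat.le_succ m)) (by omega) (by omega)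
      (by
        rw [show i - (4 * 5 ^ m + 5 ^ (m + 1)) + al = (i + al) - (4 * 5 ^ m + 5 ^ (m + 1)) by omega]
        exact mod_sub_aux (c := 2) (by omega) h2 (by rw [T]; omega) (by rw [T]; ring))
      (by
        rw [show j - (4 * 5 ^ m + 5 ^ (m + 1)) + be = (j + be) - (4 * 5 ^ m + 5 ^ (m + 1)) by omega]
        exact mod_sub_aux (c := 2) (by omega) hj1 (by rw [T]; omega) (by rw [T]; ring))
      (fun k => (X (i - (4 * 5 ^ m + 5 ^ (m + 1)) + k * 5 ^ (m + 1) + 2 * 5 ^ m)).u)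
      (fun k => (Y (j - (4 * 5 ^ m + 5 ^ (m + 1)) + k * 5 ^ (m + 1) + 4 * 5 ^ m)).u)
      (fun _ => rfl) (fun _ => rfl) 1
    obtain ⟨_, _, _, _, _, _, hw⟩ := hl
    have hset : pset (m : ZMod 3)
        (fun k => (Y (j - (4 * 5 ^ m + 5 ^ (m + 1)) + k * 5 ^ (m + 1) + 4 * 5 ^ m)).u) (1 + 1) = {3} := by
      apply pset2_Y
      · show (Y (j - (4 * 5 ^ m + 5 ^ (m + 1)) + 0 * 5 ^ (m + 1) + 4 * 5 ^ m)).u = _
        rw [show j - (4 * 5 ^ m + 5 ^ (m + 1)) + 0 * 5 ^ (m + 1) + 4 * 5 ^ m = j - 5 ^ (m + 1) by omega,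
          yu', cast1]
        simp
      · show (Y (j - (4 * 5 ^ m + 5 ^ (m + 1)) + 1 * 5 ^ (m + 1) + 4 * 5 ^ m)).u = _
        rw [show j - (4 * 5 ^ m + 5 ^ (m + 1)) + 1 * 5 ^ (m + 1) + 4 * 5 ^ m = j by omega,
          yu, cast1]
        simp
    have hb := hw hset
    rw [show i - (4 * 5 ^ m + 5 ^ (m + 1)) + 1 * 5 ^ (m + 1) + 4 * 5 ^ m = i by omega,
      show j - (4 * 5 ^ m + 5 ^ (m + 1)) + 1 * 5 ^ (m + 1) + 4 * 5 ^ m = j by omega,
      col true i j hi hj hi0 hj0 (by rw [xu]; rfl) (by rw [yu]; rfl)] at hb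
    simpa [rowOK] using hb

end Pool.Agent.H796.DLRow
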