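import Pool.Agent.H724.DL.Stm

/-!
# DL-SEG: quiet segments of the checker
-/

set_option autoImplicit false

namespace Pool.Agent.H127.DLSEG

open Pool.Agent.H724.DL

variable {Γ W : Type}

lemma istep_quiet (R : RS Γ W) (f : Bool) (d : DS W) (x y : Pay Γ) (h : noWin d) :
    istep R f d x y = (d, .keep) := by
  cases d with
  | idle => rfl
  | s1 _ _ _ => rfl
  | s2 _ _ _ => rfl
  | s3 _ _ _ _ w =>
    cases w with
    | none => rfl
    | some w => exact h.elim
  | s4 _ _ _ => rfl
  | s5 _ _ _ _ w =>
    cases w with
    | none => rfl
    | some w => exact h.elim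

lemma dn_inv (R : RS Γ W) (n : ℕ) (d : DS W) (c : Fin (n + 2)) (x y : Pay Γ) (h : x.u = y.u) :
    dn R n (some (d, c)) x y =
      some ((istep R (decide (c.val = n)) d x y).1,
        act n (istep R (decide (c.val = n)) d x y).2 c) := by
  show ((dstep R (decide (c.val = n)) d x y).map fun r => (r.1, act n r.2 c)) = _
  unfold dstep
  rw [if_pos h]
  rfl

theorem seg : Pool.Agent.H724.DL.S_SEG := by
  intro Γ W R n X Y i j t s
  refine ⟨?_, ?_⟩
  · intro h d c hd hw
    induction s with
    | zero => exact hd
    | succ s ih =>
      have h1 := ih (fun t' h1 h2 => h t' h1 (by omega))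
      have h2 := h (t + s) (by omega) (by omega)
      show dn R n (drun R n X Y i j (t + s)) (X (i + (t + s))) (Y (j + (t + s))) = _
      rw [h1, dn_inv R n d c _ _ h2, istep_quiet R _ d _ _ hw]
      rfl
  · intro h lam P Q z
    refine ⟨?_, ?_⟩
    · intro hd
      induction s with
      | zero => exact hd
      | succ s ih =>
        have h1 := ih (fun t' h1 h2 => h t' h1 (by omega))
        have h2 := h (t + 1 + s) (by omega) (by omega)
        show dn R n (drun R n X Y i j (t + 1 + s)) (X (i + (t + 1 + s))) (Y (j + (t + 1 + s))) = _
        rw [h1, dn_inv R n _ _ _ _ h2]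
        have e1 : i + (t + 1 + s) = i + t + (s + 1) := by ring
        have e2 : j + (t + 1 + s) = j + t + (s + 1) := by ring
        rw [e1, e2]
        by_cases hc : IsCol (X (i + t + (s + 1))) (Y (j + t + (s + 1)))
        · simp only [istep, wwin, if_pos hc]
          rfl
        · simp only [istep, wwin, if_neg hc]
          rfl
    · intro hd
      induction s with
      | zero => exact hd
      | succ s ih =>
        have h1 := ih (fun t' h1 h2 => h t' h1 (by omega))
        have h2 := h (t + 1 + s) (by omega) (by omega)
        show dn R n (drun R n X Y i j (t + 1 + s)) (X (i + (t + 1 + s))) (Y (j + (t + 1 + s))) = _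
        rw [h1, dn_inv R n _ _ _ _ h2]
        have e1 : i + (t + 1 + s) = i + t + (s + 1) := by ring
        have e2 : j + (t + 1 + s) = j + t + (s + 1) := by ring
        rw [e1, e2]
        by_cases hc : IsCol (X (i + t + (s + 1))) (Y (j + t + (s + 1)))
        · simp only [istep, wwin, if_pos hc]
          rfl
        · simp only [istep, wwin, if_neg hc]
          rfl

end Pool.Agent.H127.DLSEG
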