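import Pool.Agent.H724.DL.Stm

/-! DL-STEP: recursion over the levels. -/

set_option autoImplicit false

namespace Pool.Agent.H177.DL

open Pool.Agent.H724.DL

theorem step (h0 : S_F0) (h1 : S_STEP1) : S_STEP := by
  intro Γ W R n X Y hI
  obtain ⟨al0, be0, hX0, hY0⟩ := h0 Γ W R n X Y hI
  have hstep : ∀ (m : ℕ) (t : {t : ℕ × ℕ × ℕ // Hi X m t.1 t.2.2 ∧ Hi Y m t.2.1 t.2.2}),
      ∃ t' : {t : ℕ × ℕ × ℕ // Hi X (m + 1) t.1 t.2.2 ∧ Hi Y (m + 1) t.2.1 t.2.2},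
        t'.1.1 % 5 ^ (m + 1) = t.1.1 % 5 ^ (m + 1) ∧
        t'.1.2.1 % 5 ^ (m + 1) = t.1.2.1 % 5 ^ (m + 1) := by
    rintro m ⟨⟨al, be, N⟩, hX, hY⟩
    obtain ⟨al', be', N', hX', hY', ha, hb⟩ := h1 Γ W R n X Y m al be N hI hX hY
    exact ⟨⟨(al', be', N'), hX', hY'⟩, ha, hb⟩
  let sq : ∀ m : ℕ, {t : ℕ × ℕ × ℕ // Hi X m t.1 t.2.2 ∧ Hi Y m t.2.1 t.2.2} := fun m =>
    Nat.rec ⟨(al0, be0, 0), hX0, hY0⟩ (fun m t => Classical.choose (hstep m t)) m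
  refine ⟨fun m => (sq m).1.1, fun m => (sq m).1.2.1, fun m => (sq m).1.2.2, fun m => ?_⟩
  exact ⟨(sq m).2.1, (sq m).2.2, (Classical.choose_spec (hstep m (sq m))).1,
    (Classical.choose_spec (hstep m (sq m))).2⟩

end Pool.Agent.H177.DL
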