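import Pool.Agent.H724.DL.Stm

/-! DL-STEP1: from level `m` to level `m + 1`. -/

set_option autoImplicit false

namespace Pool.Agent.H980.DLstep

open Pool.Agent.H724.DL

/-- One side of the step. -/
theorem side {Γ : Type} (X : ℕ → Pay Γ) (m al N i1 c : ℕ) (hH : Hi X m al N) (hN : N ≤ i1)
    (hmod : (i1 + al) % 5 ^ (m + 1) = 0)
    (hc : ∀ k, ((c + k : ℕ) : ZMod 5) ≠ 0 →
      (X (i1 + k * 5 ^ (m + 1))).u = ((m : ZMod 3) + 1, ((c + k : ℕ) : ZMod 5))) :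
    ∃ al', Hi X (m + 1) al' i1 ∧ al' % 5 ^ (m + 1) = al % 5 ^ (m + 1) := by
  obtain ⟨M, hM⟩ := Nat.dvd_of_mod_eq_zero hmod
  refine ⟨al + 5 ^ (m + 1) * ((c + 4 * M) % 5), ?_, Nat.add_mul_mod_self_left _ _ _⟩
  intro l hl r h0 h5 i hi hr
  rcases Nat.lt_or_ge l (m + 1) with hlt | hge
  · apply hH l (by omega) r h0 h5 i (le_trans hN hi)
    have hd : 5 ^ (l + 1) ∣ 5 ^ (m + 1) := Nat.pow_dvd_pow 5 (by omega)
    obtain ⟨e, he⟩ := hd
    have h1 : i + (al + 5 ^ (m + 1) * ((c + 4 * M) % 5)) =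
        i + al + 5 ^ (l + 1) * (e * ((c + 4 * M) % 5)) := by
      rw [he]; ring
    rw [h1, Nat.add_mul_mod_self_left] at hr
    exact hr
  · have hlm : l = m + 1 := by omega
    subst hlm
    -- `5 ^ (m + 1)` divides `i - i1`
    have hpos : 0 < 5 ^ (m + 1) := pow5_pos (m + 1)
    have hd1 : 5 ^ (m + 1) ∣ i + (al + 5 ^ (m + 1) * ((c + 4 * M) % 5)) := by
      have h2 := Nat.div_add_mod (i + (al + 5 ^ (m + 1) * ((c + 4 * M) % 5))) (5 ^ (m + 1 + 1))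
      rw [hr] at h2
      rw [← h2]
      apply Dvd.dvd.add
      · apply Dvd.dvd.mul_right
        exact Nat.pow_dvd_pow 5 (by omega)
      · exact Dvd.intro_left r rfl
    have hd2 : 5 ^ (m + 1) ∣ i + al := by
      have h3 : i + (al + 5 ^ (m + 1) * ((c + 4 * M) % 5)) =
          5 ^ (m + 1) * ((c + 4 * M) % 5) + (i + al) := by ring
      rw [h3] at hd1
      exact (Nat.dvd_add_right (Dvd.intro _ rfl)).mp hd1
    have hd3 : 5 ^ (m + 1) ∣ i - i1 := by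
      have h4 : i - i1 = (i + al) - (i1 + al) := by omega
      rw [h4, hM]
      exact Nat.dvd_sub hd2 (Dvd.intro _ rfl)
    obtain ⟨k, hk⟩ := hd3
    have hik : i = i1 + k * 5 ^ (m + 1) := by
      rw [Nat.mul_comm k]
      omega
    have h5' : i + (al + 5 ^ (m + 1) * ((c + 4 * M) % 5)) =
        5 ^ (m + 1) * (M + (c + 4 * M) % 5 + k) := by
      have h6 : i + (al + 5 ^ (m + 1) * ((c + 4 * M) % 5)) =
          (i1 + al) + 5 ^ (m + 1) * ((c + 4 * M) % 5) + k * 5 ^ (m + 1) := by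
        rw [hik]; ring
      rw [h6, hM]; ring
    rw [h5', pow_succ 5 (m + 1), Nat.mul_mod_mul_left, Nat.mul_comm r] at hr
    have hr' : (M + (c + 4 * M) % 5 + k) % 5 = r := Nat.eq_of_mul_eq_mul_left hpos hr
    have hck : (c + k) % 5 = r := by omega
    have hcast : ((c + k : ℕ) : ZMod 5) = (r : ZMod 5) := by
      rw [← hck]
      exact (ZMod.natCast_mod (c + k) 5).symm
    have hne : ((c + k : ℕ) : ZMod 5) ≠ 0 := by
      rw [hcast]
      intro h0'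
      rw [ZMod.natCast_eq_zero_iff] at h0'
      have := Nat.le_of_dvd h0 h0'
      omega
    rw [hik, hc k hne, hcast]
    push_cast
    rfl

theorem pset_ne {lam : ZMod 3} {p : ℕ → ZMod 3 × ZMod 5} (h : ∀ k, pset lam p (k + 1) ≠ ∅) :
    ∀ k, pset lam p k ≠ ∅ := by
  intro k
  cases k with
  | zero =>
    show (Finset.univ : Finset (ZMod 5)) ≠ ∅
    exact Finset.univ_nonempty.ne_empty
  | succ k => exact h k

theorem step1 (hlock : S_LOCK) (hpat : S_PAT) : S_STEP1 := by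
  intro Γ W R n X Y m al be N hI hX hY
  have hT : 5 ^ (m + 1) = 5 * 5 ^ m := by rw [pow_succ]; ring
  have hpos : 0 < 5 ^ m := pow5_pos m
  obtain ⟨i0, hi0, hi⟩ := exists_ge_mod N al (5 ^ (m + 1)) (3 * 5 ^ m) (by rw [hT]; omega)
  obtain ⟨j0, hj0, hj⟩ := exists_ge_mod N be (5 ^ (m + 1)) (5 ^ m) (by rw [hT]; omega)
  have hL := hlock Γ W R n X Y m al be N i0 j0 (fun t => hI.nf i0 j0 t) hX hY hi0 hj0 hi hj
    (fun k => (X (i0 + k * 5 ^ (m + 1) + 2 * 5 ^ m)).u)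
    (fun k => (Y (j0 + k * 5 ^ (m + 1) + 4 * 5 ^ m)).u) (fun _ => rfl) (fun _ => rfl)
  obtain ⟨c, hc⟩ := hpat (m : ZMod 3) _ (pset_ne fun k => (hL k).2.1)
  obtain ⟨e, he⟩ := hpat (m : ZMod 3) _ (pset_ne fun k => (hL k).2.2.1)
  have hmi : (i0 + 2 * 5 ^ m + al) % 5 ^ (m + 1) = 0 := by
    have h1 : i0 + 2 * 5 ^ m + al = (i0 + al) + 2 * 5 ^ m := by ring
    rw [h1, Nat.add_mod, hi, hT]
    have h2 : 2 * 5 ^ m % (5 * 5 ^ m) = 2 * 5 ^ m := Nat.mod_eq_of_lt (by omega)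
    rw [h2]
    have h3 : 3 * 5 ^ m + 2 * 5 ^ m = 5 * 5 ^ m := by ring
    rw [h3, Nat.mod_self]
  have hmj : (j0 + 4 * 5 ^ m + be) % 5 ^ (m + 1) = 0 := by
    have h1 : j0 + 4 * 5 ^ m + be = (j0 + be) + 4 * 5 ^ m := by ring
    rw [h1, Nat.add_mod, hj, hT]
    have h2 : 4 * 5 ^ m % (5 * 5 ^ m) = 4 * 5 ^ m := Nat.mod_eq_of_lt (by omega)
    rw [h2]
    have h3 : 5 ^ m + 4 * 5 ^ m = 5 * 5 ^ m := by ring
    rw [h3, Nat.mod_self]
  obtain ⟨al', hal1, hal2⟩ := side X m al N (i0 + 2 * 5 ^ m) c hX (by omega) hmi (by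
    intro k hk
    have h1 : i0 + 2 * 5 ^ m + k * 5 ^ (m + 1) = i0 + k * 5 ^ (m + 1) + 2 * 5 ^ m := by ring
    rw [h1]
    exact hc k hk)
  obtain ⟨be', hbe1, hbe2⟩ := side Y m be N (j0 + 4 * 5 ^ m) e hY (by omega) hmj (by
    intro k hk
    have h1 : j0 + 4 * 5 ^ m + k * 5 ^ (m + 1) = j0 + k * 5 ^ (m + 1) + 4 * 5 ^ m := by ring
    rw [h1]
    exact he k hk)
  exact ⟨al', be', max (i0 + 2 * 5 ^ m) (j0 + 4 * 5 ^ m), hal1.mono_N (le_max_left _ _),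
    hbe1.mono_N (le_max_right _ _), hal2, hbe2⟩

end Pool.Agent.H980.DLstep
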